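import Mathlib

namespace Pool.Agent.Results.MP_3f690c_an.WeakPolar

open Matrix

/-- The Toeplitz matrix `[a_{i-j}]` of size `m`. -/
def toep {A : Type*} (m : ℕ) (a : ℤ → A) : Matrix (Fin m) (Fin m) A :=
  Matrix.of fun i j => a ((i : ℤ) - (j : ℤ))

/-- Positivity in `M_m(A)`: being of the form `N* N` with `N` in `M_m(A)`. -/
def IsPos {A : Type*} [NonUnitalRing A] [StarRing A] {m : ℕ}
    (M : Matrix (Fin m) (Fin m) A) : Prop :=
  ∃ N : Matrix (Fin m) (Fin m) A, M = Nᴴ * N

/-- The positive Toeplitz completion property. -/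
def PTC (A : Type*) [NonUnitalRing A] [StarRing A] : Prop :=
  ∀ k n : ℕ, 0 < k → k < n → ∀ a : ℤ → A, IsPos (toep k a) →
    ∃ y : ℤ → A, (∀ l : ℤ, |l| ≤ (k : ℤ) - 1 → y l = a l) ∧ IsPos (toep n y)

/-- Sums of three squares vanish only trivially. -/
def SumSq (A : Type*) [NonUnitalRing A] [StarRing A] : Prop :=
  ∀ x y z : A, star x * x + star y * y + star z * z = 0 → x = 0 ∧ y = 0 ∧ z = 0

theorem master {A : Type*} [NonUnitalRing A] [StarRing A] (hS : SumSq A) (hP : PTC A)
    (v k R H : A) (hRv : R * v = 0) (hH : H = star v * v * k)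
    (hR : star R * R = star H * H) :
    ∃ y : A, ∀ d, star v * d = 0 → y * (v * k * d) = v * R * d := by
  let a : ℤ → A := fun l => if l = 0 then v * star v + star R * R
    else if l = 1 then star H * star v + v * R
    else if l = -1 then v * H + star R * star v else 0
  have ha0 : a 0 = v * star v + star R * R := by simp [a]
  have ha1 : a 1 = star H * star v + v * R := by simp [a]
  have ham : a (-1) = v * H + star R * star v := by simp [a]
  have hpos : IsPos (toep 2 a) := by
    refine ⟨!![star v, H; R, star v], ?_⟩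
    ext i j
    fin_cases i <;> fin_cases j
    · simp [toep, Matrix.mul_apply, Fin.sum_univ_two, ha0]
    · simp [toep, Matrix.mul_apply, Fin.sum_univ_two, ham]
    · simp [toep, Matrix.mul_apply, Fin.sum_univ_two, ha1]
    · simp [toep, Matrix.mul_apply, Fin.sum_univ_two, ha0, hR, add_comm]
  obtain ⟨y, hy, N, hN⟩ := hP 2 3 (by norm_num) (by norm_num) a hpos
  have hy0 : y 0 = a 0 := hy 0 (by norm_num)
  have hy1 : y 1 = a 1 := hy 1 (by norm_num)
  have hym : y (-1) = a (-1) := hy (-1) (by norm_num)
  have e : ∀ i j : Fin 3, y ((i : ℤ) - (j : ℤ)) = star (N 0 i) * N 0 j + star (N 1 i) * N 1 j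
      + star (N 2 i) * N 2 j := by
    intro i j
    have := congrFun (congrFun hN i) j
    simpa [toep, Matrix.mul_apply, Fin.sum_univ_three] using this
  have e00 : a 0 = star (N 0 0) * N 0 0 + star (N 1 0) * N 1 0 + star (N 2 0) * N 2 0 := by
    rw [← hy0]; simpa using e 0 0
  have e01 : a (-1) = star (N 0 0) * N 0 1 + star (N 1 0) * N 1 1 + star (N 2 0) * N 2 1 := by
    rw [← hym]; simpa using e 0 1
  have e10 : a 1 = star (N 0 1) * N 0 0 + star (N 1 1) * N 1 0 + star (N 2 1) * N 2 0 := by
    rw [← hy1]; simpa using e 1 0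
  have e11 : a 0 = star (N 0 1) * N 0 1 + star (N 1 1) * N 1 1 + star (N 2 1) * N 2 1 := by
    rw [← hy0]; simpa using e 1 1
  have e20 : y 2 = star (N 0 2) * N 0 0 + star (N 1 2) * N 1 0 + star (N 2 2) * N 2 0 := by
    simpa using e 2 0
  have e21 : a 1 = star (N 0 2) * N 0 1 + star (N 1 2) * N 1 1 + star (N 2 2) * N 2 1 := by
    rw [← hy1]
    have := e 2 1
    norm_num at this
    exact this
  refine ⟨y 2, ?_⟩
  intro d hd
  set c : A := - (v * k * d) with hc
  have E1 : star v * c + H * d = 0 := by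
    rw [hc, hH]; noncomm_ring
  have E2 : R * c + star v * d = 0 := by
    rw [hc, hd]
    have : R * (v * k * d) = 0 := by
      rw [← mul_assoc, ← mul_assoc, hRv]; simp
    rw [mul_neg, this]; simp
  have F0 : a 0 * c + a (-1) * d = 0 := by
    have : a 0 * c + a (-1) * d = v * (star v * c + H * d) + star R * (R * c + star v * d) := by
      rw [ha0, ham]; noncomm_ring
    rw [this, E1, E2]; simp
  have F1 : a 1 * c + a 0 * d = 0 := by
    have : a 1 * c + a 0 * d = star H * (star v * c + H * d) + v * (R * c + star v * d) := by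
      rw [ha1, ha0, hR]; noncomm_ring
    rw [this, E1, E2]; simp
  have key : star (N 0 0 * c + N 0 1 * d) * (N 0 0 * c + N 0 1 * d)
      + star (N 1 0 * c + N 1 1 * d) * (N 1 0 * c + N 1 1 * d)
      + star (N 2 0 * c + N 2 1 * d) * (N 2 0 * c + N 2 1 * d) = 0 := by
    have : star (N 0 0 * c + N 0 1 * d) * (N 0 0 * c + N 0 1 * d)
      + star (N 1 0 * c + N 1 1 * d) * (N 1 0 * c + N 1 1 * d)
      + star (N 2 0 * c + N 2 1 * d) * (N 2 0 * c + N 2 1 * d)
      = star c * (a 0 * c + a (-1) * d) + star d * (a 1 * c + a 0 * d) := by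
      have h1 : star c * (a 0 * c + a (-1) * d)
        = star c * ((star (N 0 0) * N 0 0 + star (N 1 0) * N 1 0 + star (N 2 0) * N 2 0) * c
          + (star (N 0 0) * N 0 1 + star (N 1 0) * N 1 1 + star (N 2 0) * N 2 1) * d) := by
        rw [← e00, ← e01]
      have h2 : star d * (a 1 * c + a 0 * d)
        = star d * ((star (N 0 1) * N 0 0 + star (N 1 1) * N 1 0 + star (N 2 1) * N 2 0) * c
          + (star (N 0 1) * N 0 1 + star (N 1 1) * N 1 1 + star (N 2 1) * N 2 1) * d) := by
        rw [← e10, ← e11]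
      rw [h1, h2]
      simp only [star_add, star_mul]
      noncomm_ring
    rw [this, F0, F1]; simp
  obtain ⟨r0, r1, r2⟩ := hS _ _ _ key
  have fin : y 2 * c + a 1 * d = 0 := by
    have : y 2 * c + a 1 * d = star (N 0 2) * (N 0 0 * c + N 0 1 * d)
        + star (N 1 2) * (N 1 0 * c + N 1 1 * d) + star (N 2 2) * (N 2 0 * c + N 2 1 * d) := by
      rw [e20, e21]; noncomm_ring
    rw [this, r0, r1, r2]; simp
  have h3 : a 1 * d = v * R * d := by
    rw [ha1, add_mul, mul_assoc, hd]; simp
  rw [hc, mul_neg, h3] at fin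
  rw [neg_add_eq_zero] at fin
  exact fin

theorem sumSq_cstar (B : Type*) [CStarAlgebra B] {ι : Type*} [Fintype ι] (x : ι → B)
    (h : ∑ i, star (x i) * x i = 0) : ∀ i, x i = 0 := by
  letI := CStarAlgebra.spectralOrder B
  haveI := CStarAlgebra.spectralOrderedRing B
  intro i
  have := (Finset.sum_eq_zero_iff_of_nonneg (fun i _ => star_mul_self_nonneg (x i))).1 h i
    (Finset.mem_univ i)
  exact CStarRing.star_mul_self_eq_zero_iff _ |>.1 this

theorem sumSq_matrix (n : Type*) [Fintype n] [DecidableEq n] (B : Type*) [CStarAlgebra B] :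
    SumSq (Matrix n n B) := by
  intro x y z h
  have key : ∀ j l : n, x l j = 0 ∧ y l j = 0 ∧ z l j = 0 := by
    intro j
    have h1 := congrFun (congrFun h j) j
    simp only [Matrix.add_apply, Matrix.mul_apply, Matrix.star_apply, Matrix.zero_apply] at h1
    let w : n ⊕ n ⊕ n → B := Sum.elim (fun l => x l j) (Sum.elim (fun l => y l j) (fun l => z l j))
    have h2 : ∑ i, star (w i) * w i = 0 := by
      rw [Fintype.sum_sum_type, Fintype.sum_sum_type]
      simp only [w, Sum.elim_inl, Sum.elim_inr]
      rw [← add_assoc]; exact h1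
    have h3 := sumSq_cstar B w h2
    intro l
    exact ⟨h3 (Sum.inl l), h3 (Sum.inr (Sum.inl l)), h3 (Sum.inr (Sum.inr l))⟩
  refine ⟨?_, ?_, ?_⟩
  · ext l j; exact (key j l).1
  · ext l j; exact (key j l).2.1
  · ext l j; exact (key j l).2.2

/-- Weak polar decomposition in `B` from the completion property of `M_n(B)`. -/
theorem weakPolar (n : Type*) [Fintype n] [DecidableEq n] [Nontrivial n] (B : Type*)
    [CStarAlgebra B] (hP : PTC (Matrix n n B)) (h r : B) (hr : star r * r = star h * h) :
    ∃ y : B, y * h = r := by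
  obtain ⟨i, j, hij⟩ := exists_pair_ne n
  have hst : ∀ (p q : n) (b : B), star (Matrix.single p q b) = Matrix.single q p (star b) := by
    intro p q b
    rw [Matrix.star_eq_conjTranspose, Matrix.conjTranspose_single]
  obtain ⟨Y, hY⟩ := master (sumSq_matrix n B) hP (Matrix.single i j (1 : B))
    (Matrix.single j j h) (Matrix.single j j r) (Matrix.single j j h)
    (by rw [Matrix.single_mul_single_of_ne _ _ _ _ hij.symm])
    (by rw [hst]; simp)
    (by rw [hst, hst]; simp [hr])
  have h1 := hY (Matrix.single j j 1) (by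
    rw [hst, Matrix.single_mul_single_of_ne _ _ _ _ hij])
  have h2 := congrFun (congrFun h1 i) j
  refine ⟨Y i i, ?_⟩
  simpa using h2

/-- signs -/
noncomputable def sg (S : Set ℕ) (n : ℕ) : ℝ := by
  classical exact if n ∈ S then 1 else -1

theorem sg_sq (S : Set ℕ) (n : ℕ) : sg S n * sg S n = 1 := by
  unfold sg; split_ifs <;> norm_num

theorem sg_abs (S : Set ℕ) (n : ℕ) : |sg S n| = 1 := by
  unfold sg; split_ifs <;> norm_num

theorem separable_case (B : Type*) [CStarAlgebra B] [TopologicalSpace.SeparableSpace B]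
    (hW : ∀ h r : B, star r * r = star h * h → ∃ y : B, y * h = r)
    (x : ℕ → B) (hsa : ∀ i, IsSelfAdjoint (x i))
    (horth : ∀ i j, i ≠ j → x i * x j = 0) : ∃ i, x i = 0 := by
  by_contra hne
  push Not at hne
  -- normalise
  let z : ℕ → B := fun i => ((‖x i‖)⁻¹ : ℝ) • x i
  have hz1 : ∀ i, ‖z i‖ = 1 := by
    intro i
    have : ‖x i‖ ≠ 0 := norm_ne_zero_iff.2 (hne i)
    simp only [z, norm_smul, norm_inv, norm_norm]
    field_simp
  have hzsa : ∀ i, star (z i) = z i := by
    intro i
    simp only [z, star_smul, (hsa i).star_eq]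
    simp
  have hzo : ∀ i j, i ≠ j → z i * z j = 0 := by
    intro i j hij
    simp only [z, smul_mul_smul_comm, horth i j hij, smul_zero]
  have hzz : ∀ i, z i * z i ≠ 0 := by
    intro i h0
    have : ‖star (z i) * z i‖ = ‖z i‖ * ‖z i‖ := CStarRing.norm_star_mul_self
    rw [hzsa, h0, hz1] at this
    norm_num at this
  -- the sums
  let t : Set ℕ → ℕ → B := fun S n => (sg S n * (1 / 2) ^ n : ℝ) • z n
  have hsum : ∀ S, Summable (t S) := by
    intro S
    apply Summable.of_norm_bounded (g := fun n => (1 / 2 : ℝ) ^ n)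
      (summable_geometric_of_lt_one (by norm_num) (by norm_num))
    intro n
    simp only [t, norm_smul, hz1, mul_one, Real.norm_eq_abs, abs_mul, sg_abs, one_mul]
    rw [abs_of_nonneg (by positivity)]
  let H : Set ℕ → B := fun S => ∑' n, t S n
  have hHz : ∀ S m, H S * z m = (sg S m * (1 / 2) ^ m : ℝ) • (z m * z m) := by
    intro S m
    simp only [H]
    rw [← (hsum S).tsum_mul_right]
    rw [tsum_eq_single m]
    · simp only [t, smul_mul_assoc]
    · intro n hn
      simp only [t, smul_mul_assoc, hzo n m hn, smul_zero]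
  have hHsa : ∀ S, star (H S) = H S := by
    intro S
    simp only [H]
    rw [tsum_star]
    congr 1
    ext n
    simp only [t, star_smul, hzsa]
    simp
  have hHH : ∀ S, H S * H S = ∑' n, (((1 / 2) ^ n * (1 / 2) ^ n : ℝ)) • (z n * z n) := by
    intro S
    conv_lhs => rw [show H S * H S = H S * ∑' n, t S n from rfl]
    rw [← (hsum S).tsum_mul_left]
    congr 1
    ext n
    simp only [t, mul_smul_comm, hHz, smul_smul]
    congr 1
    have := sg_sq S n
    calc sg S n * (1 / 2) ^ n * (sg S n * (1 / 2) ^ n)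
        = (sg S n * sg S n) * ((1 / 2) ^ n * (1 / 2) ^ n) := by ring
      _ = (1 / 2) ^ n * (1 / 2) ^ n := by rw [this, one_mul]
  have hex : ∀ S, ∃ y : B, y * H S = H Set.univ := by
    intro S
    apply hW
    rw [hHsa, hHsa, hHH, hHH]
  choose Y hY using hex
  have hYz : ∀ S m, Y S * (z m * z m) = sg S m • (z m * z m) := by
    intro S m
    have h1 : Y S * H S * z m = H Set.univ * z m := by rw [hY]
    rw [mul_assoc, hHz, hHz, mul_smul_comm] at h1
    have h2 : sg Set.univ m = 1 := by simp [sg]
    rw [h2, one_mul] at h1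
    have h3 : ((1 / 2 : ℝ) ^ m) ≠ 0 := by positivity
    have h4 : sg S m • Y S * (z m * z m) = z m * z m := by
      have h5 : ((1 / 2 : ℝ) ^ m) • (sg S m • (Y S * (z m * z m)))
          = ((1 / 2 : ℝ) ^ m) • (z m * z m) := by
        rw [smul_smul, mul_comm, h1]
      have h6 := smul_right_injective B h3 h5
      rw [smul_mul_assoc]; exact h6
    calc Y S * (z m * z m) = (sg S m * sg S m) • (Y S * (z m * z m)) := by
          rw [sg_sq, one_smul]
      _ = sg S m • (z m * z m) := by
          rw [mul_smul, ← smul_mul_assoc (sg S m) (Y S), h4]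
  have hdist : ∀ S T, S ≠ T → 2 ≤ dist (Y S) (Y T) := by
    intro S T hST
    have : ∃ m, sg S m - sg T m = 2 ∨ sg S m - sg T m = -2 := by
      by_contra hcon
      push Not at hcon
      apply hST
      ext m
      have := hcon m
      unfold sg at this
      by_cases h1 : m ∈ S <;> by_cases h2 : m ∈ T
      · simp [h1, h2]
      · exfalso; apply this.1; simp [h1, h2]; norm_num
      · exfalso; apply this.2; simp [h1, h2]; norm_num
      · simp [h1, h2]
    obtain ⟨m, hm⟩ := this
    have h1 : (Y S - Y T) * (z m * z m) = (sg S m - sg T m) • (z m * z m) := by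
      rw [sub_mul, hYz, hYz, sub_smul]
    have h2 : ‖(Y S - Y T) * (z m * z m)‖ = 2 * ‖z m * z m‖ := by
      rw [h1, norm_smul]
      rcases hm with hm | hm <;> rw [hm] <;> norm_num
    have h3 := norm_mul_le (Y S - Y T) (z m * z m)
    rw [h2] at h3
    have h4 : 0 < ‖z m * z m‖ := norm_pos_iff.2 (hzz m)
    rw [dist_eq_norm]
    exact le_of_mul_le_mul_right h3 h4
  have hcount : (Set.univ : Set (Set ℕ)).Countable := by
    apply Set.PairwiseDisjoint.countable_of_isOpen (s := fun S => Metric.ball (Y S) 1)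
    · intro S _ T _ hST
      apply Metric.ball_disjoint_ball
      have := hdist S T hST
      linarith
    · intro S _; exact Metric.isOpen_ball
    · intro S _; exact ⟨Y S, Metric.mem_ball_self one_pos⟩
  haveI : Countable (Set ℕ) := Set.countable_univ_iff.1 hcount
  obtain ⟨f, hf⟩ := exists_surjective_nat (Set ℕ)
  exact Function.cantor_surjective f hf

/-- the F-space property -/
theorem fspace_case (X : Type*) [TopologicalSpace X] [CompactSpace X]
    (hW : ∀ h r : C(X, ℂ), star r * r = star h * h → ∃ y : C(X, ℂ), y * h = r)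
    (f g : C(X, ℝ)) (hfg : f * g = 0) :
    Disjoint (closure (Function.support f)) (closure (Function.support g)) := by
  let h : C(X, ℂ) := ⟨fun x => ((|f x| - |g x| : ℝ) : ℂ), by fun_prop⟩
  let r : C(X, ℂ) := ⟨fun x => ((|f x| + |g x| : ℝ) : ℂ), by fun_prop⟩
  have hfg' : ∀ x, |f x| * |g x| = 0 := by
    intro x
    have := congrArg (fun F : C(X, ℝ) => F x) hfg
    simp only [ContinuousMap.mul_apply, ContinuousMap.zero_apply] at this
    rw [← abs_mul, this, abs_zero]
  obtain ⟨y, hy⟩ := hW h r (by
    ext x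
    simp only [ContinuousMap.mul_apply, ContinuousMap.star_apply, h, r, ContinuousMap.coe_mk]
    simp only [Complex.star_def, Complex.conj_ofReal]
    norm_cast
    have := hfg' x
    nlinarith)
  have hyx : ∀ x, y x * ((|f x| - |g x| : ℝ) : ℂ) = ((|f x| + |g x| : ℝ) : ℂ) := by
    intro x
    exact congrArg (fun F : C(X, ℂ) => F x) hy
  have h1 : closure (Function.support f) ⊆ {x | y x = 1} := by
    apply closure_minimal _ (isClosed_eq y.continuous continuous_const)
    intro x hx
    have hfx : |f x| ≠ 0 := abs_ne_zero.2 hx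
    have hgx : |g x| = 0 := by
      rcases mul_eq_zero.1 (hfg' x) with h | h
      · exact absurd h hfx
      · exact h
    have := hyx x
    rw [hgx, sub_zero, add_zero] at this
    have hne : ((|f x| : ℝ) : ℂ) ≠ 0 := by exact_mod_cast hfx
    exact mul_right_cancel₀ hne (by rw [this, one_mul])
  have h2 : closure (Function.support g) ⊆ {x | y x = -1} := by
    apply closure_minimal _ (isClosed_eq y.continuous continuous_const)
    intro x hx
    have hgx : |g x| ≠ 0 := abs_ne_zero.2 hx
    have hfx : |f x| = 0 := by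
      rcases mul_eq_zero.1 (hfg' x) with h | h
      · exact h
      · exact absurd h hgx
    have := hyx x
    rw [hfx, zero_sub, zero_add] at this
    have hne : ((|g x| : ℝ) : ℂ) ≠ 0 := by exact_mod_cast hgx
    apply mul_right_cancel₀ hne
    push_cast at this ⊢
    linear_combination (-1 : ℂ) * this
  rw [Set.disjoint_left]
  intro x hx1 hx2
  have e1 : y x = 1 := h1 hx1
  have e2 : y x = -1 := h2 hx2
  rw [e1] at e2
  norm_num at e2

theorem sumSq_nonunital (A : Type*) [NonUnitalCStarAlgebra A] : SumSq A := by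
  intro x y z h
  letI := CStarAlgebra.spectralOrder A
  haveI := CStarAlgebra.spectralOrderedRing A
  have hx := star_mul_self_nonneg x
  have hy := star_mul_self_nonneg y
  have hz := star_mul_self_nonneg z
  have h1 := (add_eq_zero_iff_of_nonneg (add_nonneg hx hy) hz).1 h
  have h2 := (add_eq_zero_iff_of_nonneg hx hy).1 h1.1
  exact ⟨CStarRing.star_mul_self_eq_zero_iff _ |>.1 h2.1,
    CStarRing.star_mul_self_eq_zero_iff _ |>.1 h2.2,
    CStarRing.star_mul_self_eq_zero_iff _ |>.1 h1.2⟩

/-- Obstruction for separable algebras. -/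
theorem separable_general (A : Type*) [NonUnitalCStarAlgebra A]
    [TopologicalSpace.SeparableSpace A] (hP : PTC A) (v : A)
    (x : ℕ → A) (hsa : ∀ i, IsSelfAdjoint (x i))
    (horth : ∀ i j, i ≠ j → x i * x j = 0) (hxv : ∀ i, x i * v = 0)
    (hcomm : ∀ i, x i * (star v * v) = star v * v * x i)
    (c : ℝ) (hc0 : 0 < c) (hne : ∀ i, v * (x i * x i) ≠ 0)
    (hc : ∀ i, c * ‖v * (x i * x i)‖ ≤ ‖v * star v * v * (x i * x i)‖) : False := by
  let w : ℕ → ℝ := fun n => (1 / 2) ^ n / (1 + ‖x n‖)
  have hw : ∀ n, 0 < w n := fun n => by positivity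
  let t : Set ℕ → ℕ → A := fun S n => (sg S n * w n : ℝ) • x n
  have hsum : ∀ S, Summable (t S) := by
    intro S
    apply Summable.of_norm_bounded (g := fun n => (1 / 2 : ℝ) ^ n)
      (summable_geometric_of_lt_one (by norm_num) (by norm_num))
    intro n
    simp only [t, norm_smul, Real.norm_eq_abs, abs_mul, sg_abs, one_mul]
    rw [abs_of_pos (hw n)]
    have h1 : (0 : ℝ) < 1 + ‖x n‖ := by positivity
    simp only [w]
    rw [div_mul_eq_mul_div, div_le_iff₀ h1]
    have : (0 : ℝ) < (1 / 2) ^ n := by positivity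
    nlinarith [norm_nonneg (x n)]
  let K : Set ℕ → A := fun S => ∑' n, t S n
  have hKx : ∀ S m, K S * x m = (sg S m * w m : ℝ) • (x m * x m) := by
    intro S m
    simp only [K]
    rw [← (hsum S).tsum_mul_right]
    rw [tsum_eq_single m]
    · simp only [t, smul_mul_assoc]
    · intro n hn
      simp only [t, smul_mul_assoc, horth n m hn, smul_zero]
  have hKsa : ∀ S, star (K S) = K S := by
    intro S
    simp only [K]
    rw [tsum_star]
    congr 1
    ext n
    simp only [t, star_smul, (hsa n).star_eq]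
    simp
  have hKK : ∀ S, K S * K S = ∑' n, (w n * w n : ℝ) • (x n * x n) := by
    intro S
    conv_lhs => rw [show K S * K S = K S * ∑' n, t S n from rfl]
    rw [← (hsum S).tsum_mul_left]
    congr 1
    ext n
    simp only [t, mul_smul_comm, hKx, smul_smul]
    congr 1
    have := sg_sq S n
    calc sg S n * w n * (sg S n * w n)
        = (sg S n * sg S n) * (w n * w n) := by ring
      _ = w n * w n := by rw [this, one_mul]
  have hKv : ∀ S, K S * v = 0 := by
    intro S
    simp only [K]
    rw [← (hsum S).tsum_mul_right]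
    have : ∀ n, t S n * v = 0 := by
      intro n; simp only [t, smul_mul_assoc, hxv, smul_zero]
    simp [this]
  have hKP : ∀ S, K S * (star v * v) = star v * v * K S := by
    intro S
    simp only [K]
    rw [← (hsum S).tsum_mul_right, ← (hsum S).tsum_mul_left]
    congr 1
    ext n
    simp only [t, smul_mul_assoc, mul_smul_comm, hcomm]
  have hsq : ∀ S, star (star v * v * K S) * (star v * v * K S)
      = star v * v * (star v * v) * (K S * K S) := by
    intro S
    rw [star_mul, hKsa, star_mul, star_star, hKP, mul_assoc, ← mul_assoc (K S), hKP]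
    simp only [mul_assoc]
  have hex : ∀ S, ∃ y : A, ∀ d, star v * d = 0 →
      y * (v * K S * d) = v * (star v * v * K Set.univ) * d := by
    intro S
    refine master (sumSq_nonunital A) hP v (K S) (star v * v * K Set.univ) (star v * v * K S)
      ?_ rfl ?_
    · rw [mul_assoc, hKv, mul_zero]
    · rw [hsq, hsq, hKK, hKK]
  choose Y hY using hex
  have hvx : ∀ m, star v * x m = 0 := by
    intro m
    have := congrArg star (hxv m)
    rwa [star_mul, (hsa m).star_eq, star_zero] at this
  have hYx : ∀ S m, Y S * (v * (x m * x m)) = sg S m • (v * star v * v * (x m * x m)) := by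
    intro S m
    have h1 := hY S (x m) (hvx m)
    have e1 : v * K S * x m = (sg S m * w m : ℝ) • (v * (x m * x m)) := by
      rw [mul_assoc, hKx, mul_smul_comm]
    have e2 : v * (star v * v * K Set.univ) * x m
        = (w m : ℝ) • (v * star v * v * (x m * x m)) := by
      have h2 : sg Set.univ m = 1 := by simp [sg]
      calc v * (star v * v * K Set.univ) * x m
          = v * star v * v * (K Set.univ * x m) := by simp only [mul_assoc]
        _ = (w m : ℝ) • (v * star v * v * (x m * x m)) := by
            rw [hKx, h2, one_mul, mul_smul_comm]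
    rw [e1, e2, mul_smul_comm] at h1
    have h3 : (w m : ℝ) ≠ 0 := (hw m).ne'
    have h5 : (w m : ℝ) • (sg S m • (Y S * (v * (x m * x m))))
        = (w m : ℝ) • (v * star v * v * (x m * x m)) := by
      rw [smul_smul, mul_comm, h1]
    have h6 : sg S m • (Y S * (v * (x m * x m))) = v * star v * v * (x m * x m) :=
      smul_right_injective A h3 h5
    calc Y S * (v * (x m * x m)) = (sg S m * sg S m) • (Y S * (v * (x m * x m))) := by
          rw [sg_sq, one_smul]
      _ = sg S m • (v * star v * v * (x m * x m)) := by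
          rw [mul_smul, h6]
  have hdist : ∀ S T, S ≠ T → 2 * c ≤ dist (Y S) (Y T) := by
    intro S T hST
    have : ∃ m, sg S m - sg T m = 2 ∨ sg S m - sg T m = -2 := by
      by_contra hcon
      push Not at hcon
      apply hST
      ext m
      have := hcon m
      unfold sg at this
      by_cases h1 : m ∈ S <;> by_cases h2 : m ∈ T
      · simp [h1, h2]
      · exfalso; apply this.1; simp [h1, h2]; norm_num
      · exfalso; apply this.2; simp [h1, h2]; norm_num
      · simp [h1, h2]
    obtain ⟨m, hm⟩ := this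
    have h1 : (Y S - Y T) * (v * (x m * x m))
        = (sg S m - sg T m) • (v * star v * v * (x m * x m)) := by
      rw [sub_mul, hYx, hYx, sub_smul]
    have h2 : ‖(Y S - Y T) * (v * (x m * x m))‖ = 2 * ‖v * star v * v * (x m * x m)‖ := by
      rw [h1, norm_smul]
      rcases hm with hm | hm <;> rw [hm] <;> norm_num
    have h3 := norm_mul_le (Y S - Y T) (v * (x m * x m))
    rw [h2] at h3
    have h4 : 0 < ‖v * (x m * x m)‖ := norm_pos_iff.2 (hne m)
    rw [dist_eq_norm]
    apply le_of_mul_le_mul_right _ h4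
    have := hc m
    nlinarith
  have hcount : (Set.univ : Set (Set ℕ)).Countable := by
    apply Set.PairwiseDisjoint.countable_of_isOpen (s := fun S => Metric.ball (Y S) c)
    · intro S _ T _ hST
      apply Metric.ball_disjoint_ball
      have := hdist S T hST
      linarith
    · intro S _; exact Metric.isOpen_ball
    · intro S _; exact ⟨Y S, Metric.mem_ball_self hc0⟩
  haveI : Countable (Set ℕ) := Set.countable_univ_iff.1 hcount
  obtain ⟨f, hf⟩ := exists_surjective_nat (Set ℕ)
  exact Function.cantor_surjective f hf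

/-- Corners under a square-zero partial isometry, separable case. -/
theorem separable_corner (A : Type*) [NonUnitalCStarAlgebra A]
    [TopologicalSpace.SeparableSpace A] (hP : PTC A) (v : A) (hv2 : v * v = 0)
    (hv : v * star v * v = v)
    (x : ℕ → A) (hsa : ∀ i, IsSelfAdjoint (x i))
    (horth : ∀ i j, i ≠ j → x i * x j = 0) (hcor : ∀ i, star v * v * x i = x i) :
    ∃ i, x i = 0 := by
  by_contra hne
  push Not at hne
  have hcor' : ∀ i, x i * (star v * v) = x i := by
    intro i
    have := congrArg star (hcor i)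
    rwa [star_mul, star_mul, star_star, (hsa i).star_eq] at this
  refine separable_general A hP v x hsa horth ?_ ?_ 1 one_pos ?_ ?_
  · intro i
    rw [← hcor' i, mul_assoc, mul_assoc, hv2, mul_zero, mul_zero]
  · intro i
    rw [hcor, hcor']
  · intro i h0
    have h1 : star v * (v * (x i * x i)) = x i * x i := by
      rw [← mul_assoc, ← mul_assoc, hcor]
    rw [h0, mul_zero] at h1
    have h2 : ‖star (x i) * x i‖ = ‖x i‖ * ‖x i‖ := CStarRing.norm_star_mul_self
    rw [(hsa i).star_eq, ← h1, norm_zero] at h2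
    have := norm_ne_zero_iff.2 (hne i)
    rcases mul_eq_zero.1 h2.symm with h | h <;> exact this h
  · intro i
    rw [hv, one_mul]

/-- Weak polar decomposition in corners under a square-zero partial isometry. -/
theorem corner_polar (A : Type*) [NonUnitalCStarAlgebra A] (hP : PTC A) (v : A)
    (hv2 : v * v = 0) (hv : v * star v * v = v) (h r : A)
    (hh : star v * v * h = h) (hr1 : star v * v * r = r) (hr2 : r * (star v * v) = r)
    (hh2 : h * (star v * v) = h)
    (hhr : star r * r = star h * h) :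
    ∃ y : A, star v * v * y = y ∧ y * (star v * v) = y ∧ y * h = r := by
  have hRv : r * v = 0 := by
    rw [← hr2, mul_assoc, mul_assoc, hv2, mul_zero, mul_zero]
  obtain ⟨Y, hY⟩ := master (sumSq_nonunital A) hP v h r h hRv hh.symm hhr
  have hvs : star v * v * star v = star v := by
    have := congrArg star hv
    rwa [star_mul, star_mul, star_star, ← mul_assoc] at this
  have hvv : star v * star v = 0 := by
    have := congrArg star hv2
    rwa [star_mul, star_zero] at this
  have h1 := hY (star v * v) (by rw [← mul_assoc, hvv, zero_mul])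
  rw [mul_assoc v h, hh2, mul_assoc v r, hr2] at h1
  refine ⟨star v * Y * v, ?_, ?_, ?_⟩
  · rw [← mul_assoc, ← mul_assoc, hvs]
  · rw [mul_assoc (star v * Y), ← mul_assoc v, hv]
  · rw [mul_assoc, mul_assoc, h1, ← mul_assoc, hr1]

/-- Spaces with a nontrivial convergent sequence. -/
theorem no_seq (X : Type*) [TopologicalSpace X] [CompactSpace X] [T2Space X]
    (hF : ∀ f g : C(X, ℝ), f * g = 0 →
      Disjoint (closure (Function.support f)) (closure (Function.support g)))
    (p : ℕ → X) (hp : Function.Injective p) (L : X) (hL : ∀ n, p n ≠ L)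
    (hlim : Filter.Tendsto p Filter.atTop (nhds L)) : False := by
  let e : C(OnePoint ℕ, X) := OnePoint.continuousMapMkNat p L hlim
  have he1 : ∀ n : ℕ, e (n : OnePoint ℕ) = p n := fun n => rfl
  have he2 : e OnePoint.infty = L := rfl
  have hinj : Function.Injective e := by
    intro a b hab
    induction a using OnePoint.rec with
    | infty =>
      induction b using OnePoint.rec with
      | infty => rfl
      | coe b => exact absurd hab.symm (hL b)
    | coe a =>
      induction b using OnePoint.rec with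
      | infty => exact absurd hab (hL a)
      | coe b =>
        have : p a = p b := hab
        rw [hp this]
  have hce : Topology.IsClosedEmbedding e := e.continuous.isClosedEmbedding hinj
  have hu : Filter.Tendsto (fun n : ℕ => ((-1 : ℝ) ^ n / ((n : ℝ) + 1))) Filter.atTop
      (nhds 0) := by
    apply squeeze_zero_norm (a := fun n : ℕ => 1 / ((n : ℝ) + 1))
    · intro n
      rw [norm_div, norm_pow, norm_neg, norm_one, one_pow, Real.norm_eq_abs,
        abs_of_pos (by positivity)]
    · exact tendsto_one_div_add_atTop_nhds_zero_nat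
  let u : C(OnePoint ℕ, ℝ) := OnePoint.continuousMapMkNat _ 0 hu
  obtain ⟨φ, hφ⟩ := ContinuousMap.exists_extension hce u
  have hφn : ∀ n : ℕ, φ (p n) = (-1 : ℝ) ^ n / ((n : ℝ) + 1) := by
    intro n
    have := congrArg (fun F : C(OnePoint ℕ, ℝ) => F (n : OnePoint ℕ)) hφ
    exact this
  have hd := hF (|φ| + φ) (|φ| - φ) (by
    ext x
    simp only [ContinuousMap.mul_apply, ContinuousMap.add_apply, ContinuousMap.sub_apply,
      ContinuousMap.abs_apply, ContinuousMap.zero_apply]
    have := abs_mul_abs_self (φ x)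
    linarith)
  rw [Set.disjoint_left] at hd
  have t2 : Filter.Tendsto (fun n : ℕ => 2 * n) Filter.atTop Filter.atTop :=
    Filter.tendsto_atTop_mono (fun n => by show n ≤ 2 * n; omega) Filter.tendsto_id
  have t3 : Filter.Tendsto (fun n : ℕ => 2 * n + 1) Filter.atTop Filter.atTop :=
    Filter.tendsto_atTop_mono (fun n => by show n ≤ 2 * n + 1; omega) Filter.tendsto_id
  apply hd (a := L)
  · apply mem_closure_of_tendsto (hlim.comp t2)
    filter_upwards with n
    simp only [Function.comp, Function.mem_support, ContinuousMap.add_apply,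
      ContinuousMap.abs_apply, hφn]
    rw [pow_mul]
    norm_num
    positivity
  · apply mem_closure_of_tendsto (hlim.comp t3)
    filter_upwards with n
    simp only [Function.comp, Function.mem_support, ContinuousMap.sub_apply,
      ContinuousMap.abs_apply, hφn]
    rw [pow_succ, pow_mul]
    have hpos : (0 : ℝ) < ((2 * n + 1 : ℕ) : ℝ) + 1 := by positivity
    have : ((-1 : ℝ) ^ 2) ^ n * -1 / (((2 * n + 1 : ℕ) : ℝ) + 1)
        = - (1 / (((2 * n + 1 : ℕ) : ℝ) + 1)) := by
      norm_num
      ring
    rw [this, abs_neg, abs_of_pos (by positivity)]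
    have h2 : (0 : ℝ) < 1 / (((2 * n + 1 : ℕ) : ℝ) + 1) := by positivity
    linarith

/-- A sequence of spectral points approaching an accumulation point fast. -/
theorem fast_seq (σ : Set ℝ) (lam : ℝ) (hlam : 0 < lam)
    (hacc : ∀ ε : ℝ, 0 < ε → ∃ μ ∈ σ, |μ - lam| < ε ∧ μ ≠ lam) :
    ∃ s : ℕ → ℝ, (∀ n, s n ∈ σ) ∧ (∀ n, 0 < |s n - lam|) ∧ (∀ n, |s n - lam| < lam / 4) ∧
      ∀ m n, n < m → |s m - lam| ≤ |s n - lam| / 2 := by
  let P := {μ : ℝ // μ ∈ σ ∧ μ ≠ lam}
  have hnext : ∀ q : P, ∃ q' : P, |q'.1 - lam| < |q.1 - lam| / 2 := by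
    intro q
    have hq : 0 < |q.1 - lam| / 2 := by
      have := abs_pos.2 (sub_ne_zero.2 q.2.2)
      linarith
    obtain ⟨μ, h1, h2, h3⟩ := hacc _ hq
    exact ⟨⟨μ, h1, h3⟩, h2⟩
  choose F hF using hnext
  obtain ⟨μ0, h01, h02, h03⟩ := hacc (lam / 4) (by linarith)
  let s : ℕ → P := fun n => Nat.rec ⟨μ0, h01, h03⟩ (fun _ q => F q) n
  have hs0 : (s 0).1 = μ0 := rfl
  have hs1 : ∀ n, s (n + 1) = F (s n) := fun n => rfl
  have hdec : ∀ n, |(s (n + 1)).1 - lam| < |(s n).1 - lam| / 2 := by
    intro n; rw [hs1]; exact hF _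
  have hpos : ∀ n, 0 < |(s n).1 - lam| := fun n => abs_pos.2 (sub_ne_zero.2 (s n).2.2)
  have hmono : ∀ n k, |(s (n + 1 + k)).1 - lam| ≤ |(s n).1 - lam| / 2 := by
    intro n k
    induction k with
    | zero => exact (hdec n).le
    | succ k ih =>
      have h1 := hdec (n + 1 + k)
      have h2 := hpos (n + 1 + k)
      have h3 : s (n + 1 + (k + 1)) = s (n + 1 + k + 1) := rfl
      rw [h3]; linarith
  refine ⟨fun n => (s n).1, fun n => (s n).2.1, hpos, ?_, ?_⟩
  · intro n
    rcases n with _ | n
    · show |(s 0).1 - lam| < _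
      rw [hs0]; exact h02
    · have h1 := hmono 0 n
      have h2 : s (0 + 1 + n) = s (n + 1) := by
        rw [show 0 + 1 + n = n + 1 by omega]
      rw [h2, hs0] at h1
      show |(s (n + 1)).1 - lam| < _
      have := abs_nonneg (μ0 - lam)
      linarith
  · intro m n hnm
    obtain ⟨k, rfl⟩ := Nat.exists_eq_add_of_le hnm
    exact hmono n k

/-- Separable algebras: the spectrum of `v* v`, `v` square-zero, is discrete off `0`. -/
theorem spectrum_discrete (A : Type*) [NonUnitalCStarAlgebra A]
    [TopologicalSpace.SeparableSpace A] (hP : PTC A) (v : A) (hv2 : v * v = 0)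
    (lam : ℝ) (hlam : 0 < lam) :
    ∃ ε : ℝ, 0 < ε ∧ ∀ μ ∈ quasispectrum ℝ (star v * v), |μ - lam| < ε → μ = lam := by
  by_contra hcon
  push Not at hcon
  obtain ⟨s, hs1, hs2, hs3, hs4⟩ := fast_seq (quasispectrum ℝ (star v * v)) lam hlam hcon
  set a : A := star v * v with ha
  have hasa : IsSelfAdjoint a := IsSelfAdjoint.star_mul_self v
  let r : ℕ → ℝ := fun n => |s n - lam|
  have hr : ∀ n, 0 < r n := hs2
  have hr4 : ∀ n, r n < lam / 4 := hs3
  let f : ℕ → ℝ → ℝ := fun n t => max 0 (1 - 4 * |(|t - lam|) - r n| / r n)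
  have hfc : ∀ n, Continuous (f n) := by
    intro n; simp only [f]; fun_prop
  have hf_supp : ∀ n t, f n t ≠ 0 → 3 / 4 * r n < |t - lam| ∧ |t - lam| < 5 / 4 * r n := by
    intro n t h
    have h1 : 0 < 1 - 4 * |(|t - lam|) - r n| / r n := by
      by_contra h2
      push Not at h2
      apply h
      simp only [f]
      exact max_eq_left h2
    have h2 : 4 * |(|t - lam|) - r n| / r n < 1 := by linarith
    rw [div_lt_one (hr n)] at h2
    have h3 : |(|t - lam|) - r n| < r n / 4 := by linarith
    rw [abs_lt] at h3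
    constructor <;> linarith [h3.1, h3.2]
  have hf_big : ∀ n t, f n t ≠ 0 → lam / 2 ≤ t := by
    intro n t h
    have h1 := (hf_supp n t h).2
    have h2 := hr4 n
    have h3 : |t - lam| < lam / 2 := by linarith
    rw [abs_lt] at h3
    linarith [h3.1]
  have hf0 : ∀ n, f n 0 = 0 := by
    intro n
    by_contra h
    have := hf_big n 0 h
    linarith
  have hfs : ∀ n, f n (s n) = 1 := by
    intro n
    simp only [f]
    have : |(|s n - lam|) - r n| = 0 := by simp [r]
    rw [this]; simp
  have hforth : ∀ i j, i ≠ j → ∀ t, f i t * f j t = 0 := by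
    have key : ∀ i j, i < j → ∀ t, f i t * f j t = 0 := by
      intro i j hij t
      by_contra h
      have h1 := (hf_supp i t (left_ne_zero_of_mul h)).1
      have h2 := (hf_supp j t (right_ne_zero_of_mul h)).2
      have h3 : r j ≤ r i / 2 := hs4 j i hij
      have := hr i
      linarith
    intro i j hij t
    rcases lt_or_gt_of_ne hij with h | h
    · exact key i j h t
    · rw [mul_comm]; exact key j i h t
  let x : ℕ → A := fun n => cfcₙ (f n) a
  have hidc : ContinuousOn (fun t : ℝ => t) (quasispectrum ℝ a) := continuousOn_id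
  have hid : cfcₙ (fun t : ℝ => t) a = a := cfcₙ_id' ℝ a
  have hxa : ∀ n, x n * a = cfcₙ (fun t => f n t * t) a := by
    intro n
    rw [cfcₙ_mul (f n) (fun t => t) a (hfc n).continuousOn (hf0 n) hidc rfl, hid]
  have hax : ∀ n, a * x n = cfcₙ (fun t => t * f n t) a := by
    intro n
    rw [cfcₙ_mul (fun t => t) (f n) a hidc rfl (hfc n).continuousOn (hf0 n), hid]
  have hav : a * v = 0 := by rw [ha, mul_assoc, hv2, mul_zero]
  have hxv : ∀ n, x n * v = 0 := by
    intro n
    let g : ℝ → ℝ := fun t => f n t * (max t (lam / 2))⁻¹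
    have hg : Continuous g := by
      simp only [g]
      refine (hfc n).mul (Continuous.inv₀ (by fun_prop) ?_)
      intro t
      have : 0 < max t (lam / 2) := lt_max_of_lt_right (by linarith)
      exact this.ne'
    have hg0 : g 0 = 0 := by simp only [g, hf0, zero_mul]
    have h1 : (fun t => g t * t) = f n := by
      funext t
      by_cases h : f n t = 0
      · simp only [g, h, zero_mul]
      · have h2 := hf_big n t h
        simp only [g, max_eq_left h2]
        have : t ≠ 0 := by intro h0; rw [h0] at h2; linarith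
        field_simp
    have h2 : x n = cfcₙ g a * a := by
      have := cfcₙ_mul g (fun t => t) a hg.continuousOn hg0 hidc rfl
      rw [hid] at this
      rw [← this, h1]
    rw [h2, mul_assoc, hav, mul_zero]
  have hxsa : ∀ n, IsSelfAdjoint (x n) := fun n => IsSelfAdjoint.cfcₙ
  have hxo : ∀ i j, i ≠ j → x i * x j = 0 := by
    intro i j hij
    rw [← cfcₙ_mul (f i) (f j) a (hfc i).continuousOn (hf0 i) (hfc j).continuousOn (hf0 j)]
    have : (fun t => f i t * f j t) = fun _ => (0 : ℝ) := by
      funext t; exact hforth i j hij t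
    rw [this]
    simp
  have hcomm : ∀ n, x n * a = a * x n := by
    intro n
    rw [hxa, hax]
    congr 1
    funext t; ring
  have hxx : ∀ n, x n * x n = cfcₙ (fun t => f n t * f n t) a := by
    intro n
    rw [cfcₙ_mul (f n) (f n) a (hfc n).continuousOn (hf0 n) (hfc n).continuousOn (hf0 n)]
  have hc2 : ∀ n, Continuous (fun t => f n t * f n t) := fun n => (hfc n).mul (hfc n)
  have hz2 : ∀ n, (fun t => f n t * f n t) 0 = 0 := fun n => by simp [hf0]
  -- norms
  have hn1 : ∀ n, ‖v * (x n * x n)‖ * ‖v * (x n * x n)‖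
      = ‖cfcₙ (fun t => (f n t * f n t) * (t * (f n t * f n t))) a‖ := by
    intro n
    rw [← CStarRing.norm_star_mul_self]
    congr 1
    have h1 : star (v * (x n * x n)) * (v * (x n * x n))
        = (x n * x n) * (a * (x n * x n)) := by
      rw [star_mul, star_mul, (hxsa n).star_eq, ha]
      simp only [mul_assoc]
    rw [h1, hxx]
    rw [cfcₙ_mul (fun t => f n t * f n t) (fun t => t * (f n t * f n t)) a
      (hc2 n).continuousOn (hz2 n) (continuous_id.mul (hc2 n)).continuousOn (by simp),
      cfcₙ_mul (fun t => t) (fun t => f n t * f n t) a hidc rfl (hc2 n).continuousOn (hz2 n),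
      hid]
  have hn2 : ∀ n, ‖v * star v * v * (x n * x n)‖ * ‖v * star v * v * (x n * x n)‖
      = ‖cfcₙ (fun t => (f n t * f n t) * (t * (t * (t * (f n t * f n t))))) a‖ := by
    intro n
    rw [← CStarRing.norm_star_mul_self]
    congr 1
    have h1 : star (v * star v * v * (x n * x n)) * (v * star v * v * (x n * x n))
        = (x n * x n) * (a * (a * (a * (x n * x n)))) := by
      rw [star_mul, star_mul, star_mul, star_mul, (hxsa n).star_eq, star_star, ha]
      simp only [mul_assoc]
    rw [h1, hxx]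
    rw [cfcₙ_mul (fun t => f n t * f n t) (fun t => t * (t * (t * (f n t * f n t)))) a
      (hc2 n).continuousOn (hz2 n)
      (continuous_id.mul (continuous_id.mul (continuous_id.mul (hc2 n)))).continuousOn (by simp),
      cfcₙ_mul (fun t => t) (fun t => t * (t * (f n t * f n t))) a hidc rfl
      (continuous_id.mul (continuous_id.mul (hc2 n))).continuousOn (by simp),
      cfcₙ_mul (fun t => t) (fun t => t * (f n t * f n t)) a hidc rfl
      (continuous_id.mul (hc2 n)).continuousOn (by simp),
      cfcₙ_mul (fun t => t) (fun t => f n t * f n t) a hidc rfl (hc2 n).continuousOn (hz2 n),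
      hid]
  have hcont1 : ∀ n, Continuous (fun t => (f n t * f n t) * (t * (f n t * f n t))) :=
    fun n => (hc2 n).mul (continuous_id.mul (hc2 n))
  have hcont2 : ∀ n, Continuous (fun t => (f n t * f n t) * (t * (t * (t * (f n t * f n t))))) :=
    fun n => (hc2 n).mul (continuous_id.mul (continuous_id.mul (continuous_id.mul (hc2 n))))
  refine separable_general A hP v x hxsa hxo hxv hcomm (lam / 2) (by linarith) ?_ ?_
  · intro n h0
    have h1 := hn1 n
    rw [h0, norm_zero, mul_zero] at h1
    have h2 := norm_apply_le_norm_cfcₙ (fun t => (f n t * f n t) * (t * (f n t * f n t))) a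
      (hs1 n) (hcont1 n).continuousOn (by simp [hf0])
    rw [← h1] at h2
    simp only [hfs] at h2
    have h3 : s n = 0 := by simpa using h2
    have h4 := hf_big n (s n) (by rw [hfs]; norm_num)
    linarith
  · intro n
    have hle : ‖cfcₙ (fun t => (f n t * f n t) * (t * (f n t * f n t))) a‖
        ≤ (4 / lam ^ 2) *
          ‖cfcₙ (fun t => (f n t * f n t) * (t * (t * (t * (f n t * f n t))))) a‖ := by
      apply norm_cfcₙ_le
      intro t ht
      have h1 := norm_apply_le_norm_cfcₙ
        (fun t => (f n t * f n t) * (t * (t * (t * (f n t * f n t))))) a ht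
        (hcont2 n).continuousOn (by simp [hf0])
      refine le_trans ?_ (mul_le_mul_of_nonneg_left h1 (by positivity))
      by_cases h : f n t = 0
      · simp [h]
      · have h2 := hf_big n t h
        have ht0 : 0 < t := by linarith
        have hF : 0 ≤ (f n t * f n t) * (t * (f n t * f n t)) := by
          have : 0 ≤ f n t * f n t := mul_self_nonneg _
          positivity
        have hG : 0 ≤ (f n t * f n t) * (t * (t * (t * (f n t * f n t)))) := by
          have : 0 ≤ f n t * f n t := mul_self_nonneg _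
          positivity
        rw [Real.norm_of_nonneg hF, Real.norm_of_nonneg hG]
        rw [div_mul_eq_mul_div, le_div_iff₀ (by positivity)]
        have h5 : lam ^ 2 ≤ 4 * t ^ 2 := by nlinarith
        calc (f n t * f n t) * (t * (f n t * f n t)) * lam ^ 2
            ≤ (f n t * f n t) * (t * (f n t * f n t)) * (4 * t ^ 2) :=
              mul_le_mul_of_nonneg_left h5 hF
          _ = 4 * ((f n t * f n t) * (t * (t * (t * (f n t * f n t))))) := by ring
    rw [← hn1, ← hn2] at hle
    have h6 : (lam / 2 * ‖v * (x n * x n)‖) ^ 2 ≤ ‖v * star v * v * (x n * x n)‖ ^ 2 := by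
      have h7 : lam ^ 2 / 4 * (‖v * (x n * x n)‖ * ‖v * (x n * x n)‖)
          ≤ ‖v * star v * v * (x n * x n)‖ * ‖v * star v * v * (x n * x n)‖ := by
        have := mul_le_mul_of_nonneg_left hle (show 0 ≤ lam ^ 2 / 4 by positivity)
        refine this.trans (le_of_eq ?_)
        field_simp
      nlinarith
    exact le_of_sq_le_sq h6 (norm_nonneg _)

/-- No infinite orthogonal family. -/
def NoOrth (B : Type*) [NonUnitalNonAssocRing B] [StarRing B] : Prop :=
  ∀ x : ℕ → B, (∀ i, IsSelfAdjoint (x i)) → (∀ i j, i ≠ j → x i * x j = 0) → ∃ i, x i = 0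

theorem finite_spectrum (B : Type*) [CStarAlgebra B] (hO : NoOrth B) (a : B)
    (ha : IsSelfAdjoint a) : (spectrum ℝ a).Finite := by
  by_contra hinf
  have hcomp : IsCompact (spectrum ℝ a) := spectrum.isCompact a
  obtain ⟨lam, _, hacc⟩ := Set.Infinite.exists_accPt_of_subset_isCompact hinf hcomp subset_rfl
  rw [accPt_iff_nhds] at hacc
  obtain ⟨s', hs1, hs2, -, hs4⟩ := fast_seq {t | t + (lam - 1) ∈ spectrum ℝ a} 1 one_pos (by
    intro ε hε
    obtain ⟨μ, ⟨h1, h2⟩, h3⟩ := hacc (Metric.ball lam ε) (Metric.ball_mem_nhds lam hε)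
    refine ⟨μ - (lam - 1), ?_, ?_, ?_⟩
    · simpa using h2
    · rw [Metric.mem_ball, Real.dist_eq] at h1
      rwa [show μ - (lam - 1) - 1 = μ - lam by ring]
    · intro h4; apply h3; linarith)
  let s : ℕ → ℝ := fun n => s' n + (lam - 1)
  have hs : ∀ n, s n ∈ spectrum ℝ a := hs1
  let r : ℕ → ℝ := fun n => |s' n - 1|
  have hr : ∀ n, 0 < r n := hs2
  have hrs : ∀ n, |s n - lam| = r n := by
    intro n; simp only [s, r]; congr 1; ring
  let f : ℕ → ℝ → ℝ := fun n t => max 0 (1 - 4 * |(|t - lam|) - r n| / r n)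
  have hfc : ∀ n, Continuous (f n) := by
    intro n; simp only [f]; fun_prop
  have hf_supp : ∀ n t, f n t ≠ 0 → 3 / 4 * r n < |t - lam| ∧ |t - lam| < 5 / 4 * r n := by
    intro n t h
    have h1 : 0 < 1 - 4 * |(|t - lam|) - r n| / r n := by
      by_contra h2
      push Not at h2
      apply h
      simp only [f]
      exact max_eq_left h2
    have h2 : 4 * |(|t - lam|) - r n| / r n < 1 := by linarith
    rw [div_lt_one (hr n)] at h2
    have h3 : |(|t - lam|) - r n| < r n / 4 := by linarith
    rw [abs_lt] at h3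
    constructor <;> linarith [h3.1, h3.2]
  have hfs : ∀ n, f n (s n) = 1 := by
    intro n
    simp only [f]
    have : |(|s n - lam|) - r n| = 0 := by rw [hrs]; simp
    rw [this]; simp
  have hforth : ∀ i j, i ≠ j → ∀ t, f i t * f j t = 0 := by
    have key : ∀ i j, i < j → ∀ t, f i t * f j t = 0 := by
      intro i j hij t
      by_contra h
      have h1 := (hf_supp i t (left_ne_zero_of_mul h)).1
      have h2 := (hf_supp j t (right_ne_zero_of_mul h)).2
      have h3 : r j ≤ r i / 2 := hs4 j i hij
      have := hr i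
      linarith
    intro i j hij t
    rcases lt_or_gt_of_ne hij with h | h
    · exact key i j h t
    · rw [mul_comm]; exact key j i h t
  obtain ⟨i, hi⟩ := hO (fun n => cfc (f n) a) (fun n => IsSelfAdjoint.cfc) (by
    intro i j hij
    show cfc (f i) a * cfc (f j) a = 0
    rw [← cfc_mul (f i) (f j) a (hfc i).continuousOn (hfc j).continuousOn]
    have : (fun t => f i t * f j t) = fun _ => (0 : ℝ) := by
      funext t; exact hforth i j hij t
    rw [this]
    simp)
  have h1 := norm_apply_le_norm_cfc (f i) a (hs i) (hfc i).continuousOn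
  have hi' : cfc (f i) a = 0 := hi
  rw [hi', norm_zero, hfs] at h1
  norm_num at h1

/-- Projection. -/
def Pr {B : Type*} [Mul B] [Star B] (p : B) : Prop := star p = p ∧ p * p = p

/-- Minimal projection. -/
def Mn {B : Type*} [CStarAlgebra B] (p : B) : Prop :=
  ∀ a : B, IsSelfAdjoint a → p * a = a → a * p = a → ∃ c : ℝ, a = c • p

theorem split (B : Type*) [CStarAlgebra B] (hO : NoOrth B) (q : B) (hq : Pr q)
    (hm : ¬ Mn q) : ∃ q' : B, Pr q' ∧ q' ≠ 0 ∧ q' ≠ q ∧ q' * q = q' := by
  unfold Mn at hm
  push Not at hm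
  obtain ⟨a, ha, h1, h2, h3⟩ := hm
  have hfin := finite_spectrum B hO a ha
  have hcont : ∀ g : ℝ → ℝ, ContinuousOn g (spectrum ℝ a) := fun g => hfin.continuousOn g
  classical
  let e : ℝ → B := fun lam => cfc (fun t : ℝ => if t = lam then (1 : ℝ) else 0) a
  have hesa : ∀ lam, star (e lam) = e lam := fun lam => (IsSelfAdjoint.cfc).star_eq
  have hee : ∀ lam, e lam * e lam = e lam := by
    intro lam
    show cfc _ a * cfc _ a = cfc _ a
    rw [← cfc_mul _ _ a (hcont _) (hcont _)]
    congr 1
    funext t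
    split_ifs <;> norm_num
  have hqa : Commute a q := by
    show a * q = q * a
    rw [h1, h2]
  have hqe : ∀ lam, e lam * q = q * e lam := by
    intro lam
    have := Commute.cfc_real hqa (fun t : ℝ => if t = lam then (1 : ℝ) else 0)
    exact this.eq
  by_contra hcon
  push Not at hcon
  have hdich : ∀ lam, q * e lam = 0 ∨ q * e lam = q := by
    intro lam
    by_contra h
    push Not at h
    apply hcon (q * e lam) ?_ h.1 h.2
    · rw [mul_assoc, hqe, ← mul_assoc, hq.2]
    · constructor
      · rw [star_mul, hesa, hq.1, hqe]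
      · calc q * e lam * (q * e lam) = q * (e lam * q) * e lam := by simp only [mul_assoc]
          _ = q * q * (e lam * e lam) := by rw [hqe]; simp only [mul_assoc]
          _ = q * e lam := by rw [hq.2, hee]
  have hsum : a = ∑ lam ∈ hfin.toFinset, lam • e lam := by
    have : cfc (∑ lam ∈ hfin.toFinset, fun t : ℝ => lam • (if t = lam then (1 : ℝ) else 0)) a
        = ∑ lam ∈ hfin.toFinset, cfc (fun t : ℝ => lam • (if t = lam then (1 : ℝ) else 0)) a :=
      cfc_sum _ a _ (fun i _ => hcont _)
    have h4 : ∀ lam : ℝ, cfc (fun t : ℝ => lam • (if t = lam then (1 : ℝ) else 0)) a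
        = lam • e lam := by
      intro lam
      rw [cfc_smul lam (fun t : ℝ => if t = lam then (1 : ℝ) else 0) a (hcont _)]
    simp only [h4] at this
    rw [← this]
    conv_lhs => rw [← cfc_id ℝ a]
    apply cfc_congr
    intro t ht
    simp only [id, Finset.sum_apply, smul_eq_mul, mul_ite, mul_one, mul_zero]
    rw [Finset.sum_ite_eq]
    rw [if_pos (by simpa using ht)]
  choose! c hc using (fun lam => show ∃ c : ℝ, q * e lam = c • q from by
    rcases hdich lam with h | h
    · exact ⟨0, by rw [h, zero_smul]⟩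
    · exact ⟨1, by rw [h, one_smul]⟩)
  apply h3 (∑ lam ∈ hfin.toFinset, lam * c lam)
  calc a = q * a := h1.symm
    _ = ∑ lam ∈ hfin.toFinset, lam • (q * e lam) := by
        conv_lhs => rw [hsum]
        rw [Finset.mul_sum]
        exact Finset.sum_congr rfl (fun lam _ => by rw [mul_smul_comm])
    _ = ∑ lam ∈ hfin.toFinset, (lam * c lam) • q := by
        exact Finset.sum_congr rfl (fun lam _ => by rw [hc, smul_smul])
    _ = _ := by rw [Finset.sum_smul]

theorem exists_min (B : Type*) [CStarAlgebra B] (hO : NoOrth B) (q : B) (hq : Pr q)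
    (hq0 : q ≠ 0) : ∃ e : B, Pr e ∧ e ≠ 0 ∧ e * q = e ∧ Mn e := by
  by_contra hcon
  push Not at hcon
  let P := {e : B // Pr e ∧ e ≠ 0 ∧ e * q = e}
  have hnext : ∀ e : P, ∃ e' : P, e'.1 ≠ e.1 ∧ e'.1 * e.1 = e'.1 := by
    rintro ⟨e, he1, he2, he3⟩
    obtain ⟨q', h1, h2, h3, h4⟩ := split B hO e he1 (hcon e he1 he2 he3)
    exact ⟨⟨q', h1, h2, by rw [← h4, mul_assoc, he3]⟩, h3, h4⟩
  choose F hF1 hF2 using hnext
  let s : ℕ → P := fun n => Nat.rec ⟨q, hq, hq0, hq.2⟩ (fun _ e => F e) n
  have hs : ∀ n, s (n + 1) = F (s n) := fun n => rfl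
  have hmono : ∀ n k, (s (n + k)).1 * (s n).1 = (s (n + k)).1 := by
    intro n k
    induction k with
    | zero => exact (s n).2.1.2
    | succ k ih =>
      have h1 : (s (n + (k + 1))).1 * (s (n + k)).1 = (s (n + (k + 1))).1 := hF2 (s (n + k))
      calc (s (n + (k + 1))).1 * (s n).1
          = (s (n + (k + 1))).1 * (s (n + k)).1 * (s n).1 := by rw [h1]
        _ = (s (n + (k + 1))).1 * ((s (n + k)).1 * (s n).1) := by rw [mul_assoc]
        _ = (s (n + (k + 1))).1 := by rw [ih, h1]
  have hmono' : ∀ n m, n ≤ m → (s m).1 * (s n).1 = (s m).1 := by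
    intro n m hnm
    obtain ⟨k, rfl⟩ := Nat.exists_eq_add_of_le hnm
    exact hmono n k
  let x : ℕ → B := fun n => (s n).1 - (s (n + 1)).1
  have hxsa : ∀ n, IsSelfAdjoint (x n) := by
    intro n
    show star ((s n).1 - (s (n + 1)).1) = _
    rw [star_sub, (s n).2.1.1, (s (n + 1)).2.1.1]
  have hx1 : ∀ m n, n < m → x m * x n = 0 := by
    intro m n hnm
    simp only [x]
    rw [mul_sub, sub_mul, sub_mul, hmono' n m hnm.le, hmono' n (m + 1) (by omega),
      hmono' (n + 1) m hnm, hmono' (n + 1) (m + 1) (by omega)]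
    simp
  obtain ⟨i, hi⟩ := hO x hxsa (by
    intro i j hij
    rcases lt_or_gt_of_ne hij with h | h
    · have := congrArg star (hx1 j i h)
      rwa [star_mul, (hxsa i).star_eq, (hxsa j).star_eq, star_zero] at this
    · exact hx1 i j h)
  exact hF1 (s i) (sub_eq_zero.1 hi).symm

theorem resolution (B : Type*) [CStarAlgebra B] (hO : NoOrth B) :
    ∃ (n : ℕ) (e : ℕ → B), (∀ i, Pr (e i) ∧ Mn (e i)) ∧ ∑ i ∈ Finset.range n, e i = 1 := by
  classical
  have hnext : ∀ R : B, ∃ e : B, Pr e ∧ Mn e ∧ (Pr R → e * R = e) ∧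
      (Pr R → R ≠ 0 → e ≠ 0) := by
    intro R
    by_cases h : Pr R ∧ R ≠ 0
    · obtain ⟨e, h1, h2, h3, h4⟩ := exists_min B hO R h.1 h.2
      exact ⟨e, h1, h4, fun _ => h3, fun _ _ => h2⟩
    · refine ⟨0, ⟨by simp, by simp⟩, ?_, fun _ => by simp, ?_⟩
      · intro a _ h1 _
        exact ⟨0, by rw [← h1]; simp⟩
      · intro h1 h2; exact absurd ⟨h1, h2⟩ h
  choose F hF1 hF2 hF3 hF4 using hnext
  let s : ℕ → B := fun n => Nat.rec 1 (fun _ R => R - F R) n
  have hs0 : s 0 = 1 := rfl
  have hs : ∀ n, s (n + 1) = s n - F (s n) := fun n => rfl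
  have hsPr : ∀ n, Pr (s n) := by
    intro n
    induction n with
    | zero => rw [hs0]; exact ⟨star_one _, one_mul _⟩
    | succ n ih =>
      rw [hs]
      have h1 := hF3 (s n) ih
      have h2 : s n * F (s n) = F (s n) := by
        have := congrArg star h1
        rwa [star_mul, ih.1, (hF1 (s n)).1] at this
      refine ⟨by rw [star_sub, ih.1, (hF1 (s n)).1], ?_⟩
      rw [sub_mul, mul_sub, mul_sub, ih.2, h1, h2, (hF1 (s n)).2]
      simp
  let e : ℕ → B := fun n => F (s n)
  have he : ∀ n, e n * s n = e n := fun n => hF3 (s n) (hsPr n)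
  have hsum : ∀ n, ∑ i ∈ Finset.range n, e i = 1 - s n := by
    intro n
    induction n with
    | zero => simp [hs0]
    | succ n ih => rw [Finset.sum_range_succ, ih, hs]; simp only [e]; abel
  have hse : ∀ n, s (n + 1) * e n = 0 := by
    intro n
    have h2 : s n * F (s n) = F (s n) := by
      have := congrArg star (hF3 (s n) (hsPr n))
      rwa [star_mul, (hsPr n).1, (hF1 (s n)).1] at this
    rw [hs, sub_mul]
    show s n * F (s n) - F (s n) * F (s n) = 0
    rw [h2, (hF1 (s n)).2, sub_self]
  have hss : ∀ n k, s (n + k) * s n = s (n + k) := by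
    intro n k
    induction k with
    | zero => exact (hsPr n).2
    | succ k ih =>
      have h3 : s (n + (k + 1)) = s (n + k) - F (s (n + k)) := hs (n + k)
      rw [h3, sub_mul, ih]
      congr 1
      rw [← hF3 (s (n + k)) (hsPr _), mul_assoc, ih]
  have hee : ∀ n m, n < m → e m * e n = 0 := by
    intro n m hnm
    obtain ⟨k, rfl⟩ := Nat.exists_eq_add_of_le hnm
    have h1 : e (n + 1 + k) * s (n + 1) = e (n + 1 + k) := by
      calc e (n + 1 + k) * s (n + 1) = e (n + 1 + k) * s (n + 1 + k) * s (n + 1) := by rw [he]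
        _ = e (n + 1 + k) * (s (n + 1 + k) * s (n + 1)) := by rw [mul_assoc]
        _ = e (n + 1 + k) := by rw [hss, he]
    have : e (n.succ + k) * e n = 0 := by
      have h2 : n.succ + k = n + 1 + k := rfl
      rw [h2, ← h1, mul_assoc, hse, mul_zero]
    exact this
  obtain ⟨i, hi⟩ := hO e (fun n => (hF1 (s n)).1) (by
    intro i j hij
    rcases lt_or_gt_of_ne hij with h | h
    · have := congrArg star (hee i j h)
      rwa [star_mul, (hF1 (s i)).1, (hF1 (s j)).1, star_zero] at this
    · exact hee j i h)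
  have hsi : s i = 0 := by
    by_contra h
    exact hF4 (s i) (hsPr i) h hi
  exact ⟨i, e, fun n => ⟨hF1 (s n), hF2 (s n)⟩, by rw [hsum, hsi, sub_zero]⟩

theorem corner_scalar (B : Type*) [CStarAlgebra B] (e : B) (he : Pr e) (hm : Mn e) (b : B)
    (h1 : e * b = b) (h2 : b * e = b) : ∃ c : ℂ, b = c • e := by
  have h3 : star b * e = star b := by
    have := congrArg star h1
    rwa [star_mul, he.1] at this
  have h4 : e * star b = star b := by
    have := congrArg star h2
    rwa [star_mul, he.1] at this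
  obtain ⟨c1, hc1⟩ := hm (b + star b) (by
    show star (b + star b) = _
    rw [star_add, star_star, add_comm]) (by rw [mul_add, h1, h4]) (by rw [add_mul, h2, h3])
  obtain ⟨c2, hc2⟩ := hm (Complex.I • (b - star b)) (by
    show star (Complex.I • (b - star b)) = _
    rw [star_smul, star_sub, star_star]
    simp [smul_sub]
    abel) (by rw [mul_smul_comm, mul_sub, h1, h4])
    (by rw [smul_mul_assoc, sub_mul, h2, h3])
  refine ⟨((c1 : ℂ) - Complex.I * c2) / 2, ?_⟩
  have e1 : b + star b = (c1 : ℂ) • e := by rw [hc1]; rfl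
  have e2 : Complex.I • (b - star b) = (c2 : ℂ) • e := by rw [hc2]; rfl
  have e3 : b - star b = (-(Complex.I * c2)) • e := by
    have : (-Complex.I) • (Complex.I • (b - star b)) = (-Complex.I) • ((c2 : ℂ) • e) := by rw [e2]
    rw [smul_smul, smul_smul] at this
    simpa using this
  have e4 : (2 : ℂ) • b = ((c1 : ℂ) - Complex.I * c2) • e := by
    have : (2 : ℂ) • b = (b + star b) + (b - star b) := by rw [two_smul]; abel
    rw [this, e1, e3, ← add_smul, sub_eq_add_neg]
  have : b = (2 : ℂ)⁻¹ • ((2 : ℂ) • b) := by rw [smul_smul]; norm_num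
  rw [this, e4, smul_smul]
  congr 1
  ring

theorem corner_line (B : Type*) [CStarAlgebra B] (e f : B) (he : Pr e) (hme : Mn e)
    (hf : Pr f) (hmf : Mn f) :
    ∃ x : B, ∀ b : B, e * b = b → b * f = b → ∃ c : ℂ, b = c • x := by
  by_cases hall : ∀ b : B, e * b = b → b * f = b → b = 0
  · exact ⟨0, fun b h1 h2 => ⟨0, by rw [hall b h1 h2]; simp⟩⟩
  push Not at hall
  obtain ⟨x, hx1, hx2, hx0⟩ := hall
  have hx3 : star x * e = star x := by
    have := congrArg star hx1
    rwa [star_mul, he.1] at this
  have hx4 : f * star x = star x := by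
    have := congrArg star hx2
    rwa [star_mul, hf.1] at this
  obtain ⟨c, hc⟩ := corner_scalar B e he hme (x * star x) (by rw [← mul_assoc, hx1])
    (by rw [mul_assoc, hx3])
  have hc0 : c ≠ 0 := by
    intro h0
    rw [h0, zero_smul] at hc
    have := CStarRing.mul_star_self_eq_zero_iff x |>.1 hc
    exact hx0 this
  refine ⟨x, fun b h1 h2 => ?_⟩
  obtain ⟨μ, hμ⟩ := corner_scalar B f hf hmf (star x * b) (by rw [← mul_assoc, hx4])
    (by rw [mul_assoc, h2])
  have h3 : c • b = μ • x := by
    calc c • b = c • (e * b) := by rw [h1]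
      _ = (c • e) * b := by rw [smul_mul_assoc]
      _ = x * (star x * b) := by rw [← hc, mul_assoc]
      _ = μ • x := by rw [hμ, mul_smul_comm, hx2]
  refine ⟨c⁻¹ * μ, ?_⟩
  rw [mul_smul, ← h3, smul_smul, inv_mul_cancel₀ hc0, one_smul]

theorem finite_dim (B : Type*) [CStarAlgebra B] (hO : NoOrth B) : FiniteDimensional ℂ B := by
  classical
  obtain ⟨n, e, he, hsum⟩ := resolution B hO
  choose x hx using fun i j : ℕ => corner_line B (e i) (e j) (he i).1 (he i).2 (he j).1 (he j).2
  let S : Set B := ↑((Finset.range n ×ˢ Finset.range n).image (fun p : ℕ × ℕ => x p.1 p.2))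
  have hspan : ⊤ ≤ Submodule.span ℂ S := by
    intro b _
    have hb : b = ∑ i ∈ Finset.range n, ∑ j ∈ Finset.range n, e i * b * e j := by
      calc b = (∑ i ∈ Finset.range n, e i) * b * (∑ j ∈ Finset.range n, e j) := by
            rw [hsum, one_mul, mul_one]
        _ = _ := by
            rw [Finset.sum_mul, Finset.sum_mul]
            exact Finset.sum_congr rfl (fun i _ => by rw [Finset.mul_sum])
    rw [hb]
    refine Submodule.sum_mem _ (fun i hi => Submodule.sum_mem _ (fun j hj => ?_))
    obtain ⟨c, hc⟩ := hx i j (e i * b * e j) (by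
      rw [← mul_assoc, ← mul_assoc, (he i).1.2]) (by rw [mul_assoc, (he j).1.2])
    rw [hc]
    apply Submodule.smul_mem
    apply Submodule.subset_span
    simp only [S, Finset.coe_image, Set.mem_image, Finset.mem_coe, Finset.mem_product]
    exact ⟨(i, j), ⟨hi, hj⟩, rfl⟩
  refine ⟨⟨(Finset.range n ×ˢ Finset.range n).image (fun p : ℕ × ℕ => x p.1 p.2), ?_⟩⟩
  exact top_le_iff.1 hspan

/-- No infinite orthogonal family in the right ideal of `q`. -/
def NoOrthC {A : Type*} [NonUnitalCStarAlgebra A] (q : A) : Prop :=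
  ∀ x : ℕ → A, (∀ i, IsSelfAdjoint (x i)) → (∀ i j, i ≠ j → x i * x j = 0) →
    (∀ i, q * x i = x i) → ∃ i, x i = 0

theorem cfcn_factor (A : Type*) [NonUnitalCStarAlgebra A] (a : A) (ha : IsSelfAdjoint a)
    (f g : ℝ → ℝ) (hg : ContinuousOn g (quasispectrum ℝ a)) (hg0 : g 0 = 0)
    (hfg : (quasispectrum ℝ a).EqOn f (fun t => t * g t)) :
    cfcₙ f a = a * cfcₙ g a ∧ cfcₙ f a = cfcₙ g a * a := by
  have hid : cfcₙ (fun t : ℝ => t) a = a := cfcₙ_id' ℝ a
  have hidc : ContinuousOn (fun t : ℝ => t) (quasispectrum ℝ a) := continuousOn_id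
  constructor
  · rw [cfcₙ_congr hfg, cfcₙ_mul (fun t => t) g a hidc rfl hg hg0, hid]
  · have : (quasispectrum ℝ a).EqOn f (fun t => g t * t) := by
      intro t ht; rw [hfg ht]; ring
    rw [cfcₙ_congr this, cfcₙ_mul g (fun t => t) a hg hg0 hidc rfl, hid]

theorem finite_spectrum_corner (A : Type*) [NonUnitalCStarAlgebra A] (q : A)
    (hO : NoOrthC q) (a : A) (ha : IsSelfAdjoint a) (hqa : q * a = a) :
    (quasispectrum ℝ a).Finite := by
  by_contra hinf
  have hcomp : IsCompact (quasispectrum ℝ a) := quasispectrum.isCompact a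
  obtain ⟨lam, _, hacc⟩ := Set.Infinite.exists_accPt_of_subset_isCompact hinf hcomp subset_rfl
  rw [accPt_iff_nhds] at hacc
  obtain ⟨δ, hδ, hδ2⟩ : ∃ δ : ℝ, 0 < δ ∧ (lam ≠ 0 → δ ≤ |lam|) := by
    by_cases h : lam = 0
    · exact ⟨1, one_pos, fun h' => absurd h h'⟩
    · exact ⟨|lam|, abs_pos.2 h, fun _ => le_rfl⟩
  obtain ⟨s', hs1, hs2, hs3, hs4⟩ := fast_seq {t | lam + δ * (t - 1) ∈ quasispectrum ℝ a} 1
    one_pos (by
    intro ε hε
    obtain ⟨μ, ⟨h1, h2⟩, h3⟩ := hacc (Metric.ball lam (ε * δ))
      (Metric.ball_mem_nhds lam (by positivity))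
    refine ⟨(μ - lam) / δ + 1, ?_, ?_, ?_⟩
    · show lam + δ * ((μ - lam) / δ + 1 - 1) ∈ quasispectrum ℝ a
      have : lam + δ * ((μ - lam) / δ + 1 - 1) = μ := by field_simp; ring
      rw [this]; exact h2
    · rw [Metric.mem_ball, Real.dist_eq] at h1
      rw [show (μ - lam) / δ + 1 - 1 = (μ - lam) / δ by ring, abs_div, abs_of_pos hδ,
        div_lt_iff₀ hδ]
      exact h1
    · intro h4
      apply h3
      have : (μ - lam) / δ = 0 := by linarith
      rcases div_eq_zero_iff.1 this with h | h
      · linarith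
      · exact absurd h hδ.ne')
  let s : ℕ → ℝ := fun n => lam + δ * (s' n - 1)
  have hs : ∀ n, s n ∈ quasispectrum ℝ a := hs1
  let r : ℕ → ℝ := fun n => δ * |s' n - 1|
  have hr : ∀ n, 0 < r n := fun n => mul_pos hδ (hs2 n)
  have hr4 : ∀ n, r n < δ / 4 := by
    intro n
    have := mul_lt_mul_of_pos_left (hs3 n) hδ
    simp only [r]; linarith
  have hrs : ∀ n, |s n - lam| = r n := by
    intro n; simp only [s, r]
    rw [show lam + δ * (s' n - 1) - lam = δ * (s' n - 1) by ring, abs_mul, abs_of_pos hδ]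
  have hrr : ∀ i j, i < j → r j ≤ r i / 2 := by
    intro i j hij
    have := mul_le_mul_of_nonneg_left (hs4 j i hij) hδ.le
    simp only [r]; linarith
  let f : ℕ → ℝ → ℝ := fun n t => max 0 (1 - 4 * |(|t - lam|) - r n| / r n)
  have hfc : ∀ n, Continuous (f n) := by
    intro n; simp only [f]; fun_prop
  have hf_supp : ∀ n t, f n t ≠ 0 → 3 / 4 * r n < |t - lam| ∧ |t - lam| < 5 / 4 * r n := by
    intro n t h
    have h1 : 0 < 1 - 4 * |(|t - lam|) - r n| / r n := by
      by_contra h2
      push Not at h2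
      apply h
      simp only [f]
      exact max_eq_left h2
    have h2 : 4 * |(|t - lam|) - r n| / r n < 1 := by linarith
    rw [div_lt_one (hr n)] at h2
    have h3 : |(|t - lam|) - r n| < r n / 4 := by linarith
    rw [abs_lt] at h3
    constructor <;> linarith [h3.1, h3.2]
  have hkap : ∀ n, ∃ κ : ℝ, 0 < κ ∧ ∀ t, f n t ≠ 0 → κ ≤ |t| := by
    intro n
    by_cases h : lam = 0
    · refine ⟨3 / 4 * r n, by have := hr n; positivity, fun t ht => ?_⟩
      have := (hf_supp n t ht).1
      rw [h, sub_zero] at this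
      exact this.le
    · refine ⟨|lam| / 2, by have := abs_pos.2 h; positivity, fun t ht => ?_⟩
      have h1 := (hf_supp n t ht).2
      have h2 := hr4 n
      have h3 := hδ2 h
      have h4 : |lam| ≤ |t| + |t - lam| := by
        have := abs_sub_abs_le_abs_sub lam t
        rw [abs_sub_comm] at this
        linarith
      have := abs_pos.2 h
      linarith
  choose κ hκ0 hκ using hkap
  have hf0 : ∀ n, f n 0 = 0 := by
    intro n
    by_contra h
    have h1 := hκ n 0 h
    have h2 := hκ0 n
    rw [abs_zero] at h1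
    linarith
  have hfs : ∀ n, f n (s n) = 1 := by
    intro n
    simp only [f]
    have : |(|s n - lam|) - r n| = 0 := by rw [hrs]; simp
    rw [this]; simp
  have hforth : ∀ i j, i ≠ j → ∀ t, f i t * f j t = 0 := by
    have key : ∀ i j, i < j → ∀ t, f i t * f j t = 0 := by
      intro i j hij t
      by_contra h
      have h1 := (hf_supp i t (left_ne_zero_of_mul h)).1
      have h2 := (hf_supp j t (right_ne_zero_of_mul h)).2
      have h3 : r j ≤ r i / 2 := hrr i j hij
      have := hr i
      linarith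
    intro i j hij t
    rcases lt_or_gt_of_ne hij with h | h
    · exact key i j h t
    · rw [mul_comm]; exact key j i h t
  have hfac : ∀ n, q * cfcₙ (f n) a = cfcₙ (f n) a := by
    intro n
    have hm : ∀ t : ℝ, 0 < max (t ^ 2) (κ n ^ 2) := fun t =>
      lt_max_of_lt_right (pow_pos (hκ0 n) 2)
    have hgc : Continuous (fun t : ℝ => f n t * (t / max (t ^ 2) (κ n ^ 2))) :=
      (hfc n).mul (continuous_id.div (by fun_prop) (fun t => (hm t).ne'))
    have h1 := cfcn_factor A a ha (f n) (fun t : ℝ => f n t * (t / max (t ^ 2) (κ n ^ 2)))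
      hgc.continuousOn (by simp) (by
        intro t _
        by_cases h : f n t = 0
        · simp [h]
        · have h2 := hκ n t h
          have h3 : κ n ^ 2 ≤ t ^ 2 := by
            rw [← sq_abs t]
            exact pow_le_pow_left₀ (hκ0 n).le h2 2
          show f n t = t * (f n t * (t / max (t ^ 2) (κ n ^ 2)))
          rw [max_eq_left h3]
          have ht0 : t ≠ 0 := by
            intro h0
            rw [h0, abs_zero] at h2
            linarith [hκ0 n]
          field_simp)
    rw [h1.1, ← mul_assoc, hqa]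
  obtain ⟨i, hi⟩ := hO (fun n => cfcₙ (f n) a) (fun n => IsSelfAdjoint.cfcₙ) (by
    intro i j hij
    show cfcₙ (f i) a * cfcₙ (f j) a = 0
    rw [← cfcₙ_mul (f i) (f j) a (hfc i).continuousOn (hf0 i) (hfc j).continuousOn (hf0 j)]
    have : (fun t => f i t * f j t) = fun _ => (0 : ℝ) := by
      funext t; exact hforth i j hij t
    rw [this]
    simp) hfac
  have h1 := norm_apply_le_norm_cfcₙ (f i) a (hs i) (hfc i).continuousOn (hf0 i)
  have hi' : cfcₙ (f i) a = 0 := hi
  rw [hi', norm_zero, hfs] at h1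
  norm_num at h1

theorem split_corner (A : Type*) [NonUnitalCStarAlgebra A] (q : A) (hO : NoOrthC q)
    (p a : A) (hp : Pr p) (hqp : q * p = p) (ha : IsSelfAdjoint a) (h1 : p * a = a)
    (h2 : a * p = a) (h3 : ∀ c : ℝ, a ≠ c • p) :
    ∃ q' : A, Pr q' ∧ q' ≠ 0 ∧ q' ≠ p ∧ q' * p = q' := by
  have hfin := finite_spectrum_corner A q hO a ha (by rw [← h1, ← mul_assoc, hqp])
  have hcont : ∀ g : ℝ → ℝ, ContinuousOn g (quasispectrum ℝ a) := fun g => hfin.continuousOn g
  classical
  let e : ℝ → A := fun lam => cfcₙ (fun t : ℝ => if t = lam then (1 : ℝ) else 0) a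
  have hesa : ∀ lam, star (e lam) = e lam := fun lam => (IsSelfAdjoint.cfcₙ).star_eq
  have hz : ∀ lam : ℝ, lam ≠ 0 → (fun t : ℝ => if t = lam then (1 : ℝ) else 0) 0 = 0 := by
    intro lam h
    show (if (0 : ℝ) = lam then (1 : ℝ) else 0) = 0
    rw [if_neg h.symm]
  have hee : ∀ lam, lam ≠ 0 → e lam * e lam = e lam := by
    intro lam h
    show cfcₙ _ a * cfcₙ _ a = cfcₙ _ a
    rw [← cfcₙ_mul (fun t : ℝ => if t = lam then (1 : ℝ) else 0)
      (fun t : ℝ => if t = lam then (1 : ℝ) else 0) a (hcont _) (hz lam h) (hcont _) (hz lam h)]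
    congr 1
    funext t
    split_ifs <;> norm_num
  have hfac : ∀ lam, lam ≠ 0 → p * e lam = e lam ∧ e lam * p = e lam := by
    intro lam h
    have h4 := cfcn_factor A a ha (fun t : ℝ => if t = lam then (1 : ℝ) else 0)
      (fun t : ℝ => if t = lam then lam⁻¹ else 0) (hcont _)
      (by show (if (0 : ℝ) = lam then lam⁻¹ else 0) = 0; rw [if_neg h.symm]) (by
        intro t _
        show (if t = lam then (1 : ℝ) else 0) = t * (if t = lam then lam⁻¹ else 0)
        by_cases ht : t = lam
        · rw [if_pos ht, if_pos ht, ht, mul_inv_cancel₀ h]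
        · rw [if_neg ht, if_neg ht, mul_zero])
    constructor
    · show p * cfcₙ _ a = cfcₙ _ a
      rw [h4.1, ← mul_assoc, h1]
    · show cfcₙ _ a * p = cfcₙ _ a
      rw [h4.2, mul_assoc, h2]
  by_contra hcon
  push Not at hcon
  have hdich : ∀ lam, lam ≠ 0 → e lam = 0 ∨ e lam = p := by
    intro lam hl
    by_contra h
    push Not at h
    exact hcon (e lam) ⟨hesa lam, hee lam hl⟩ h.1 h.2 (hfac lam hl).2
  have hsum : a = ∑ lam ∈ hfin.toFinset.erase 0, lam • e lam := by
    have : cfcₙ (∑ lam ∈ hfin.toFinset.erase 0, fun t : ℝ => lam • (if t = lam then (1 : ℝ) else 0)) a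
        = ∑ lam ∈ hfin.toFinset.erase 0,
          cfcₙ (fun t : ℝ => lam • (if t = lam then (1 : ℝ) else 0)) a :=
      cfcₙ_sum _ a _ (fun i _ => hcont _) (fun i hi => by
        have hi0 : i ≠ 0 := Finset.ne_of_mem_erase hi
        show i • (if (0 : ℝ) = i then (1 : ℝ) else 0) = 0
        rw [if_neg hi0.symm, smul_zero])
    have h4 : ∀ lam ∈ hfin.toFinset.erase 0,
        cfcₙ (fun t : ℝ => lam • (if t = lam then (1 : ℝ) else 0)) a = lam • e lam := by
      intro lam hl
      have hl0 : lam ≠ 0 := Finset.ne_of_mem_erase hl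
      rw [cfcₙ_smul lam (fun t : ℝ => if t = lam then (1 : ℝ) else 0) a (hcont _) (hz lam hl0)]
    rw [← Finset.sum_congr rfl h4, ← this]
    conv_lhs => rw [← cfcₙ_id ℝ a]
    apply cfcₙ_congr
    intro t ht
    simp only [id, Finset.sum_apply, smul_eq_mul, mul_ite, mul_one, mul_zero]
    rw [Finset.sum_ite_eq]
    by_cases ht0 : t = 0
    · rw [ht0]; simp
    · rw [if_pos (Finset.mem_erase.2 ⟨ht0, by simpa using ht⟩)]
  have hc' : ∀ lam : ℝ, ∃ c : ℝ, lam ≠ 0 → e lam = c • p := by
    intro lam
    by_cases hl : lam = 0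
    · exact ⟨0, fun h => absurd hl h⟩
    · rcases hdich lam hl with h | h
      · exact ⟨0, fun _ => by rw [h, zero_smul]⟩
      · exact ⟨1, fun _ => by rw [h, one_smul]⟩
  choose c hc using hc'
  apply h3 (∑ lam ∈ hfin.toFinset.erase 0, lam * c lam)
  rw [Finset.sum_smul]
  conv_lhs => rw [hsum]
  exact Finset.sum_congr rfl (fun lam hl => by
    rw [hc lam (Finset.ne_of_mem_erase hl), smul_smul])

theorem exists_min_corner (A : Type*) [NonUnitalCStarAlgebra A] (q : A) (hO : NoOrthC q)
    (hq : Pr q) (hq0 : q ≠ 0) : ∃ e : A, Pr e ∧ e ≠ 0 ∧ e * q = e ∧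
      ∀ a : A, IsSelfAdjoint a → e * a = a → a * e = a → ∃ c : ℝ, a = c • e := by
  by_contra hcon
  push Not at hcon
  let P := {e : A // Pr e ∧ e ≠ 0 ∧ e * q = e}
  have hqe : ∀ e : P, q * e.1 = e.1 := by
    intro e
    have := congrArg star e.2.2.2
    rwa [star_mul, e.2.1.1, hq.1] at this
  have hnext : ∀ e : P, ∃ e' : P, e'.1 ≠ e.1 ∧ e'.1 * e.1 = e'.1 := by
    intro e
    obtain ⟨a, ha, h1, h2, h3⟩ := hcon e.1 e.2.1 e.2.2.1 e.2.2.2
    obtain ⟨q', h4, h5, h6, h7⟩ := split_corner A q hO e.1 a e.2.1 (hqe e) ha h1 h2 h3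
    exact ⟨⟨q', h4, h5, by rw [← h7, mul_assoc, e.2.2.2]⟩, h6, h7⟩
  choose F hF1 hF2 using hnext
  let s : ℕ → P := fun n => Nat.rec ⟨q, hq, hq0, hq.2⟩ (fun _ e => F e) n
  have hs : ∀ n, s (n + 1) = F (s n) := fun n => rfl
  have hmono : ∀ n k, (s (n + k)).1 * (s n).1 = (s (n + k)).1 := by
    intro n k
    induction k with
    | zero => exact (s n).2.1.2
    | succ k ih =>
      have h1 : (s (n + (k + 1))).1 * (s (n + k)).1 = (s (n + (k + 1))).1 := hF2 (s (n + k))
      calc (s (n + (k + 1))).1 * (s n).1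
          = (s (n + (k + 1))).1 * (s (n + k)).1 * (s n).1 := by rw [h1]
        _ = (s (n + (k + 1))).1 * ((s (n + k)).1 * (s n).1) := by rw [mul_assoc]
        _ = (s (n + (k + 1))).1 := by rw [ih, h1]
  have hmono' : ∀ n m, n ≤ m → (s m).1 * (s n).1 = (s m).1 := by
    intro n m hnm
    obtain ⟨k, rfl⟩ := Nat.exists_eq_add_of_le hnm
    exact hmono n k
  let x : ℕ → A := fun n => (s n).1 - (s (n + 1)).1
  have hxsa : ∀ n, IsSelfAdjoint (x n) := by
    intro n
    show star ((s n).1 - (s (n + 1)).1) = _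
    rw [star_sub, (s n).2.1.1, (s (n + 1)).2.1.1]
  have hx1 : ∀ m n, n < m → x m * x n = 0 := by
    intro m n hnm
    simp only [x]
    rw [mul_sub, sub_mul, sub_mul, hmono' n m hnm.le, hmono' n (m + 1) (by omega),
      hmono' (n + 1) m hnm, hmono' (n + 1) (m + 1) (by omega)]
    simp
  obtain ⟨i, hi⟩ := hO x hxsa (by
    intro i j hij
    rcases lt_or_gt_of_ne hij with h | h
    · have := congrArg star (hx1 j i h)
      rwa [star_mul, (hxsa i).star_eq, (hxsa j).star_eq, star_zero] at this
    · exact hx1 i j h) (by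
    intro n
    simp only [x]
    rw [mul_sub, hqe, hqe])
  exact hF1 (s i) (sub_eq_zero.1 hi).symm

theorem corner_scalar' (A : Type*) [NonUnitalCStarAlgebra A] (e : A) (he : Pr e)
    (hm : ∀ a : A, IsSelfAdjoint a → e * a = a → a * e = a → ∃ c : ℝ, a = c • e) (b : A)
    (h1 : e * b = b) (h2 : b * e = b) : ∃ c : ℂ, b = c • e := by
  have h3 : star b * e = star b := by
    have := congrArg star h1
    rwa [star_mul, he.1] at this
  have h4 : e * star b = star b := by
    have := congrArg star h2
    rwa [star_mul, he.1] at this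
  obtain ⟨c1, hc1⟩ := hm (b + star b) (by
    show star (b + star b) = _
    rw [star_add, star_star, add_comm]) (by rw [mul_add, h1, h4]) (by rw [add_mul, h2, h3])
  obtain ⟨c2, hc2⟩ := hm (Complex.I • (b - star b)) (by
    show star (Complex.I • (b - star b)) = _
    rw [star_smul, star_sub, star_star]
    simp [smul_sub]
    abel) (by rw [mul_smul_comm, mul_sub, h1, h4])
    (by rw [smul_mul_assoc, sub_mul, h2, h3])
  refine ⟨((c1 : ℂ) - Complex.I * c2) / 2, ?_⟩
  have e1 : b + star b = (c1 : ℂ) • e := by rw [hc1]; rfl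
  have e2 : Complex.I • (b - star b) = (c2 : ℂ) • e := by rw [hc2]; rfl
  have e3 : b - star b = (-(Complex.I * c2)) • e := by
    have : (-Complex.I) • (Complex.I • (b - star b)) = (-Complex.I) • ((c2 : ℂ) • e) := by rw [e2]
    rw [smul_smul, smul_smul] at this
    simpa using this
  have e4 : (2 : ℂ) • b = ((c1 : ℂ) - Complex.I * c2) • e := by
    have : (2 : ℂ) • b = (b + star b) + (b - star b) := by rw [two_smul]; abel
    rw [this, e1, e3, ← add_smul, sub_eq_add_neg]
  have : b = (2 : ℂ)⁻¹ • ((2 : ℂ) • b) := by rw [smul_smul]; norm_num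
  rw [this, e4, smul_smul]
  congr 1
  ring

/-- A separable algebra in the class with a nonzero square-zero element has a minimal
projection. -/
theorem min_proj (A : Type*) [NonUnitalCStarAlgebra A]
    [TopologicalSpace.SeparableSpace A] (hP : PTC A) (v : A) (hv2 : v * v = 0) (hv0 : v ≠ 0) :
    ∃ e : A, e ≠ 0 ∧ star e = e ∧ e * e = e ∧ ∀ a : A, ∃ c : ℂ, e * a * e = c • e := by
  set a : A := star v * v with ha
  have hasa : IsSelfAdjoint a := IsSelfAdjoint.star_mul_self v
  have ha0 : a ≠ 0 := by
    intro h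
    exact hv0 (CStarRing.star_mul_self_eq_zero_iff v |>.1 h)
  have hid : cfcₙ (fun t : ℝ => t) a = a := cfcₙ_id' ℝ a
  -- a positive point of the spectrum
  have hpos : ∀ t ∈ quasispectrum ℝ a, 0 ≤ t := by
    letI := CStarAlgebra.spectralOrder A
    haveI := CStarAlgebra.spectralOrderedRing A
    intro t ht
    exact quasispectrum_nonneg_of_nonneg a (star_mul_self_nonneg v) t ht
  obtain ⟨lam, hlam, hl0⟩ : ∃ lam ∈ quasispectrum ℝ a, 0 < lam := by
    by_contra hcon
    push Not at hcon
    apply ha0
    rw [← hid]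
    have : (quasispectrum ℝ a).EqOn (fun t : ℝ => t) (fun _ => 0) := by
      intro t ht
      exact le_antisymm (hcon t ht) (hpos t ht)
    rw [cfcₙ_congr this]
    simp
  obtain ⟨ε, hε, hiso⟩ := spectrum_discrete A hP v hv2 lam hl0
  have hcl : ∀ t ∈ quasispectrum ℝ a, |t - lam| < ε → t = lam := hiso
  let f : ℝ → ℝ := fun t => if t = lam then 1 else 0
  have hf0 : f 0 = 0 := by simp only [f]; rw [if_neg hl0.ne]
  have hgen : ∀ c : ℝ, ContinuousOn (fun t : ℝ => if t = lam then c else 0)
      (quasispectrum ℝ a) := by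
    intro c
    have h1 : Continuous (fun t : ℝ => c * max 0 (1 - |t - lam| / ε)) := by fun_prop
    refine h1.continuousOn.congr ?_
    intro t ht
    show (if t = lam then c else 0) = c * max 0 (1 - |t - lam| / ε)
    by_cases h : t = lam
    · rw [if_pos h, h]; simp
    · rw [if_neg h]
      have h2 : ε ≤ |t - lam| := by
        by_contra h3
        push Not at h3
        exact h (hcl t ht h3)
      have h3 : 1 ≤ |t - lam| / ε := by rw [le_div_iff₀ hε]; linarith
      rw [max_eq_left (by linarith), mul_zero]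
  have hfc : ContinuousOn f (quasispectrum ℝ a) := hgen 1
  let q : A := cfcₙ f a
  have hqPr : Pr q := by
    refine ⟨(IsSelfAdjoint.cfcₙ).star_eq, ?_⟩
    show cfcₙ f a * cfcₙ f a = cfcₙ f a
    rw [← cfcₙ_mul f f a hfc hf0 hfc hf0]
    congr 1
    funext t
    simp only [f]
    split_ifs <;> norm_num
  have hq0 : q ≠ 0 := by
    intro h
    have h1 := norm_apply_le_norm_cfcₙ f a hlam hfc hf0
    have h2 : cfcₙ f a = 0 := h
    rw [h2, norm_zero] at h1
    simp only [f, if_true] at h1
    norm_num at h1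
  have hidc : ContinuousOn (fun t : ℝ => t) (quasispectrum ℝ a) := continuousOn_id
  have haq : a * q = lam • q := by
    have h1 : a * q = cfcₙ (fun t => t * f t) a := by
      rw [cfcₙ_mul (fun t => t) f a hidc rfl hfc hf0, hid]
    have h2 : (fun t => t * f t) = fun t => lam • f t := by
      funext t
      simp only [f, smul_eq_mul]
      split_ifs with h
      · rw [h]
      · simp
    rw [h1, h2, cfcₙ_smul lam f a hfc hf0]
  have hqv : q * v = 0 := by
    have h1 := cfcn_factor A a hasa f (fun t : ℝ => if t = lam then lam⁻¹ else 0) (hgen _)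
      (by show (if (0 : ℝ) = lam then lam⁻¹ else 0) = 0; rw [if_neg hl0.ne]) (by
        intro t _
        show (if t = lam then (1 : ℝ) else 0) = t * (if t = lam then lam⁻¹ else 0)
        by_cases ht : t = lam
        · rw [if_pos ht, if_pos ht, ht, mul_inv_cancel₀ hl0.ne']
        · rw [if_neg ht, if_neg ht, mul_zero])
    show cfcₙ f a * v = 0
    rw [h1.2, mul_assoc, ha, mul_assoc, hv2, mul_zero, mul_zero]
  -- the partial isometry
  let w : A := ((Real.sqrt lam)⁻¹ : ℝ) • (v * q)
  have hsq : (Real.sqrt lam)⁻¹ * (Real.sqrt lam)⁻¹ * lam = 1 := by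
    rw [← mul_inv, Real.mul_self_sqrt hl0.le, inv_mul_cancel₀ hl0.ne']
  have hww : star w * w = q := by
    show star (((Real.sqrt lam)⁻¹ : ℝ) • (v * q)) * (((Real.sqrt lam)⁻¹ : ℝ) • (v * q)) = q
    rw [star_smul, star_mul, hqPr.1, smul_mul_smul_comm]
    have h1 : q * star v * (v * q) = lam • q := by
      calc q * star v * (v * q) = q * (a * q) := by rw [ha]; simp only [mul_assoc]
        _ = lam • q := by rw [haq, mul_smul_comm, hqPr.2]
    rw [h1, smul_smul]
    simp only [star_trivial]
    rw [hsq, one_smul]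
  have hw2 : w * w = 0 := by
    show (((Real.sqrt lam)⁻¹ : ℝ) • (v * q)) * (((Real.sqrt lam)⁻¹ : ℝ) • (v * q)) = 0
    rw [smul_mul_smul_comm]
    have : v * q * (v * q) = 0 := by
      rw [mul_assoc, ← mul_assoc q, hqv, zero_mul, mul_zero]
    rw [this, smul_zero]
  have hw : w * star w * w = w := by
    rw [mul_assoc, hww]
    show (((Real.sqrt lam)⁻¹ : ℝ) • (v * q)) * q = _
    rw [smul_mul_assoc, mul_assoc, hqPr.2]
  have hO : NoOrthC q := by
    intro x h1 h2 h3
    exact separable_corner A hP w hw2 hw x h1 h2 (by intro i; rw [hww]; exact h3 i)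
  obtain ⟨e, he, he0, _, hmin⟩ := exists_min_corner A q hO hqPr hq0
  refine ⟨e, he0, he.1, he.2, fun b => ?_⟩
  exact corner_scalar' A e he hmin (e * b * e)
    (by rw [← mul_assoc, ← mul_assoc, he.2]) (by rw [mul_assoc, he.2])

/-- Necessary conditions for membership in the positive Toeplitz completion class. -/
theorem result :
    -- (1) general algebras: the rigidity relation
    (∀ (A : Type) [NonUnitalCStarAlgebra A], PTC A → ∀ v k r : A, r * v = 0 →
      star r * r = star (star v * v * k) * (star v * v * k) →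
      ∃ y : A, ∀ d : A, star v * d = 0 → y * (v * k * d) = v * r * d) ∧
    -- (2) weak polar decomposition in corners under a square-zero partial isometry
    (∀ (A : Type) [NonUnitalCStarAlgebra A], PTC A → ∀ v : A, v * v = 0 →
      v * star v * v = v → ∀ h r : A,
      star v * v * h = h → h * (star v * v) = h → star v * v * r = r → r * (star v * v) = r →
      star r * r = star h * h →
      ∃ y : A, star v * v * y = y ∧ y * (star v * v) = y ∧ y * h = r) ∧
    -- (3) separable algebras: the spectrum of `v* v`, `v` square-zero, has no positive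
    -- accumulation point
    (∀ (A : Type) [NonUnitalCStarAlgebra A] [TopologicalSpace.SeparableSpace A], PTC A →
      ∀ v : A, v * v = 0 → ∀ lam : ℝ, 0 < lam →
      ∃ ε : ℝ, 0 < ε ∧ ∀ μ ∈ quasispectrum ℝ (star v * v), |μ - lam| < ε → μ = lam) ∧
    -- (4) separable algebras with a square-zero partial isometry
    (∀ (A : Type) [NonUnitalCStarAlgebra A] [TopologicalSpace.SeparableSpace A], PTC A →
      ∀ v : A, v * v = 0 → v * star v * v = v →
      ∀ x : ℕ → A, (∀ i, IsSelfAdjoint (x i)) → (∀ i j, i ≠ j → x i * x j = 0) →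
      (∀ i, star v * v * x i = x i) → ∃ i, x i = 0) ∧
    -- (4') separable algebras with a nonzero square-zero element have a minimal projection
    (∀ (A : Type) [NonUnitalCStarAlgebra A] [TopologicalSpace.SeparableSpace A], PTC A →
      ∀ v : A, v * v = 0 → v ≠ 0 →
      ∃ e : A, e ≠ 0 ∧ star e = e ∧ e * e = e ∧ ∀ a : A, ∃ c : ℂ, e * a * e = c • e) ∧
    -- (5) matrix algebras over unital algebras
    (∀ (n : Type) [Fintype n] [DecidableEq n] [Nontrivial n] (B : Type) [CStarAlgebra B],
      PTC (Matrix n n B) → ∀ h r : B, star r * r = star h * h → ∃ y : B, y * h = r) ∧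
    -- (6) matrix algebras over separable unital algebras
    (∀ (n : Type) [Fintype n] [DecidableEq n] [Nontrivial n] (B : Type) [CStarAlgebra B]
      [TopologicalSpace.SeparableSpace B], PTC (Matrix n n B) → FiniteDimensional ℂ B) ∧
    -- (7) matrix algebras over `C(X)`: the F-space property is necessary
    (∀ (n : Type) [Fintype n] [DecidableEq n] [Nontrivial n] (X : Type) [TopologicalSpace X]
      [CompactSpace X] [T2Space X], PTC (Matrix n n C(X, ℂ)) →
      ∀ f g : C(X, ℝ), f * g = 0 →
      Disjoint (closure (Function.support f)) (closure (Function.support g))) ∧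
    -- (8) spaces with a convergent sequence of distinct points
    (∀ (n : Type) [Fintype n] [DecidableEq n] [Nontrivial n] (X : Type) [TopologicalSpace X]
      [CompactSpace X] [T2Space X] (p : ℕ → X) (L : X), Function.Injective p →
      (∀ i, p i ≠ L) → Filter.Tendsto p Filter.atTop (nhds L) →
      ¬ PTC (Matrix n n C(X, ℂ))) := by
  refine ⟨?_, ?_, ?_, ?_, ?_, ?_, ?_, ?_, ?_⟩
  · intro A _ hP v k r hrv hr
    exact master (sumSq_nonunital A) hP v k r _ hrv rfl hr
  · intro A _ hP v hv2 hv h r h1 h2 h3 h4 h5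
    exact corner_polar A hP v hv2 hv h r h1 h3 h4 h2 h5
  · intro A _ _ hP v hv2 lam hlam
    exact spectrum_discrete A hP v hv2 lam hlam
  · intro A _ _ hP v hv2 hv x h1 h2 h3
    exact separable_corner A hP v hv2 hv x h1 h2 h3
  · intro A _ _ hP v hv2 hv0
    exact min_proj A hP v hv2 hv0
  · intro n _ _ _ B _ hP h r hr
    exact weakPolar n B hP h r hr
  · intro n _ _ _ B _ _ hP
    exact finite_dim B (fun x h1 h2 => separable_case B (weakPolar n B hP) x h1 h2)
  · intro n _ _ _ X _ _ _ hP f g hfg
    exact fspace_case X (weakPolar n C(X, ℂ) hP) f g hfg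
  · intro n _ _ _ X _ _ _ p L h1 h2 h3 hP
    exact no_seq X (fun f g hfg => fspace_case X (weakPolar n C(X, ℂ) hP) f g hfg) p h1 L h2 h3

end Pool.Agent.Results.MP_3f690c_an.WeakPolar
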